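import Pool.Agent.H98.EX.PTargets
import Pool.Agent.H98.SLN.INR

/-!
# Row ABM of the board exa_modules: the end parts of the neutral stretches (helper63)
-/

set_option autoImplicit false

open MeasureTheory ProbabilityTheory Filter Topology
open scoped ENNReal
open Pool.Agent.H95 Pool.Agent.H95.Cop
open Pool.Agent.H55.CG (Mo)
open Pool.Agent.H96.Cop (pk)
open Pool.Agent.H99.CE (PF BX w0 WR)
open Pool.Agent.H98.SLN (RG TS kt VB)
open Pool.Agent.H98.EX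

namespace Pool.Agent.H63.EX

/-! ## Measurability and dependence -/

lemma abm_mH (a b : ℕ) : Measurable (fun x : ℕ → ℝ => H x a b) := by
  unfold H
  exact Finset.measurable_sum _ fun i _ => measurable_pi_apply i

lemma abm_dH (a b : ℕ) (x x' : ℕ → ℝ) (h : ∀ i < b, x i = x' i) : H x a b = H x' a b := by
  unfold H
  exact Finset.sum_congr rfl fun i hi => h i (Finset.mem_Ico.1 hi).2

lemma abm_Ha (x : ℕ → ℝ) (a b : ℕ) : H x 0 (a + b) = H x 0 a + H (shift a x) 0 b := by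
  rw [Pool.Agent.H96.Cop.H_shift, zero_add, add_comm b a]
  unfold H
  exact (Finset.sum_Ico_consecutive _ (Nat.zero_le a) (Nat.le_add_right a b)).symm

lemma abm_dsh {β : Type*} {t n : ℕ} {f : (ℕ → ℝ) → β} (hf : DepLt n f) :
    DepLt (t + n) (fun x => f (shift t x)) := by
  intro x x' h
  apply hf
  intro i hi
  simp only [shift]
  exact h _ (by omega)

lemma abm_dmul {t : ℕ} {f g : (ℕ → ℝ) → ℝ≥0∞} (hf : DepLt t f) (hg : DepLt t g) :
    DepLt t (fun x => f x * g x) := by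
  intro x x' h
  simp only [hf x x' h, hg x x' h]

lemma abm_dsum {t : ℕ} {S : Finset ℕ} {f : ℕ → (ℕ → ℝ) → ℝ≥0∞} (hf : ∀ i ∈ S, DepLt t (f i)) :
    DepLt t (fun x => ∑ i ∈ S, f i x) := by
  intro x x' h
  exact Finset.sum_congr rfl fun i hi => hf i hi x x' h

lemma abm_mbe (a b : ℕ) : Measurable (fun x : ℕ → ℝ => be x a b) := by
  unfold be
  exact ENNReal.measurable_ofReal.comp (Real.measurable_exp.comp ((abm_mH a b).div_const 2).neg)

lemma abm_dbe (a b : ℕ) : DepLt b (fun x : ℕ → ℝ => be x a b) := by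
  intro x x' h
  simp only [be, abm_dH a b x x' h]

lemma abm_sbe (x : ℕ → ℝ) {r L : ℕ} (h : r ≤ L) : be x r L = be (shift r x) 0 (L - r) := by
  unfold be
  rw [Pool.Agent.H96.Cop.H_shift, zero_add, Nat.sub_add_cancel h]

lemma abm_WR (K : PMF ℕ) (k : ℕ) : WR (wc K k) := by
  intro n
  refine ⟨?_, ?_, ?_⟩
  · unfold wc
    split_ifs with h
    · exact (ENNReal.measurable_ofReal.comp
        (Real.measurable_cosh.comp ((abm_mH 0 n).div_const 2))).const_mul _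
    · exact measurable_const
  · intro x x' h
    simp only [wc, abm_dH 0 n x x' h]
  · intro x
    unfold wc
    split_ifs with h
    · exact ENNReal.mul_ne_top ENNReal.ofReal_ne_top ENNReal.ofReal_ne_top
    · exact ENNReal.zero_ne_top

/-- the sums over paths are measurable and depend on the first sites -/
structure MP (w : ℕ → (ℕ → ℝ) → ℝ≥0∞) : Prop where
  mw : ∀ n, Measurable (w n)
  dw : ∀ n, DepLt n (w n)
  mp : ∀ n, Measurable (PF w n)
  dp : ∀ n, DepLt n (PF w n)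

lemma abm_MP (hPFM : Pool.Agent.H99.CE.T_PFM) (K : PMF ℕ) (k : ℕ) : MP (wc K k) := by
  have h1 := abm_WR K k
  have h2 := (hPFM.1 (wc K k) h1).1
  exact ⟨fun n => (h1 n).1, fun n => (h1 n).2.1, fun n => (h2 n).1, fun n => (h2 n).2.1⟩

lemma MP.mGP {w : ℕ → (ℕ → ℝ) → ℝ≥0∞} (h : MP w) (p i : ℕ) : Measurable (GP w p i) := by
  unfold GP
  exact Finset.measurable_sum _ fun t _ => (h.mp t).mul ((h.mw _).comp (measurable_shift t))

lemma MP.dGP {w : ℕ → (ℕ → ℝ) → ℝ≥0∞} (h : MP w) {p i : ℕ} (hpi : p ≤ i) :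
    DepLt i (GP w p i) := by
  unfold GP
  refine abm_dsum fun t ht => ?_
  rw [Finset.mem_range] at ht
  have e : t + (i - t) = i := by omega
  exact abm_dmul ((h.dp t).mono (by omega)) (by
    have := abm_dsh (t := t) (h.dw (i - t))
    rwa [e] at this)

lemma MP.mGQ {w : ℕ → (ℕ → ℝ) → ℝ≥0∞} (h : MP w) (g s : ℕ) : Measurable (GQ w g s) := by
  unfold GQ
  exact Finset.measurable_sum _ fun t _ => (h.mw t).mul ((h.mp _).comp (measurable_shift t))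

lemma MP.dGQ {w : ℕ → (ℕ → ℝ) → ℝ≥0∞} (h : MP w) (g s : ℕ) : DepLt s (GQ w g s) := by
  unfold GQ
  refine abm_dsum fun t ht => ?_
  rw [Finset.mem_Ioc] at ht
  have e : t + (s - t) = s := by omega
  exact abm_dmul ((h.dw t).mono (by omega)) (by
    have := abm_dsh (t := t) (h.dp (s - t))
    rwa [e] at this)

lemma MP.mAP {w : ℕ → (ℕ → ℝ) → ℝ≥0∞} (h : MP w) (k R i : ℕ) : Measurable (AP w be k R i) := by
  unfold AP
  exact Finset.measurable_sum _ fun e _ =>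
    (abm_mbe 0 e).mul ((h.mGP _ _).comp (measurable_shift e))

lemma MP.dAP {w : ℕ → (ℕ → ℝ) → ℝ≥0∞} (h : MP w) {k R i : ℕ} (hR : 1 ≤ R) (hi : R * k ≤ i) :
    DepLt i (AP w be k R i) := by
  unfold AP
  refine abm_dsum fun e he => ?_
  rw [Finset.mem_range] at he
  have hk : k ≤ R * k := Nat.le_mul_of_pos_left k hR
  have e1 : e + (i - e) = i := by omega
  exact abm_dmul ((abm_dbe 0 e).mono (by omega)) (by
    have := abm_dsh (t := e) (h.dGP (p := R * k - e) (i := i - e) (by omega))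
    rwa [e1] at this)

lemma MP.mBQ {w : ℕ → (ℕ → ℝ) → ℝ≥0∞} (h : MP w) (k g L : ℕ) : Measurable (BQ w be k g L) := by
  unfold BQ
  exact Finset.measurable_sum _ fun r _ => (h.mGQ g r).mul (abm_mbe r L)

/-! ## The general bound -/

lemma abm_PFk (K : PMF ℕ) (k : ℕ) (ϑ : ℝ) (t : ℕ) : ∀ x : ℕ → ℝ,
    PF (wk K k ϑ) t x = ENNReal.ofReal (uu (kt K k (ϑ / k)) t) := by
  have hk : ∀ n, 0 ≤ kt K k (ϑ / k) n := by
    intro n
    unfold kt kk
    split_ifs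
    · positivity
    · exact le_rfl
  induction t using Nat.strong_induction_on with
  | _ t ih =>
    intro x
    cases t with
    | zero => rw [Pool.Agent.H99.CE.PF_zero, uu_zero, ENNReal.ofReal_one]
    | succ t =>
      rw [Pool.Agent.H99.CE.PF_succ, uu_succ, ENNReal.ofReal_sum_of_nonneg
        (fun j _ => mul_nonneg (hk _) (uu_nonneg _ hk _))]
      refine Finset.sum_congr rfl fun j hj => ?_
      rw [ih (t - j) (by omega), ENNReal.ofReal_mul (hk _)]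
      rfl

lemma abm_s0 (t : ℕ) : shift t (0 : ℕ → ℝ) = 0 := rfl

/-- a multiplicative function of the stretches, with bounds of its means -/
structure EB (K : PMF ℕ) (ϖ : Measure ℝ) (k : ℕ) (ϑ G : ℝ) (E : ℕ → (ℕ → ℝ) → ℝ≥0∞) : Prop where
  me : ∀ n, Measurable (E n)
  de : ∀ n, DepLt n (E n)
  mu : ∀ a b x, E (a + b) x = E a x * E b (shift a x)
  b1 : ∀ e ≤ k, ∫⁻ x, E e x * be x 0 e ∂(iid ϖ) ≤ ENNReal.ofReal (Real.exp (G * e / k + ϑ))
  b2 : ∀ t, ∫⁻ x, E t x * PF (wc K k) t x ∂(iid ϖ) ≤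
    ENNReal.ofReal (Real.exp (G * t / k)) * PF (wk K k ϑ) t 0
  b3 : ∀ n, 1 ≤ n → ∫⁻ x, E n x * wc K k n x ∂(iid ϖ) ≤
    ENNReal.ofReal (Real.exp (G * n / k)) * wk K k ϑ n 0

lemma abm_exp {G k : ℝ} {c : ℝ} {a b s : ℕ} (h : a + b = s) :
    ENNReal.ofReal (Real.exp (G * s / k + c)) =
      ENNReal.ofReal (Real.exp (G * a / k + c)) * ENNReal.ofReal (Real.exp (G * b / k)) := by
  rw [← ENNReal.ofReal_mul (Real.exp_pos _).le, ← Real.exp_add, ← h]
  congr 2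
  push_cast
  ring

lemma abm_exp0 {G k : ℝ} {a b s : ℕ} (h : a + b = s) :
    ENNReal.ofReal (Real.exp (G * s / k)) =
      ENNReal.ofReal (Real.exp (G * a / k)) * ENNReal.ofReal (Real.exp (G * b / k)) := by
  have := abm_exp (G := G) (k := k) (c := 0) h
  simpa using this

lemma EB.ind {K : PMF ℕ} {ϖ : Measure ℝ} [IsProbabilityMeasure ϖ] {k : ℕ} {ϑ G : ℝ}
    {E : ℕ → (ℕ → ℝ) → ℝ≥0∞} (h : EB K ϖ k ϑ G E) {a b s : ℕ} (hs : a + b = s)
    {f g : (ℕ → ℝ) → ℝ≥0∞} (hf : Measurable f) (hfd : DepLt a f) (hg : Measurable g) :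
    ∫⁻ x, E s x * (f x * g (shift a x)) ∂(iid ϖ) =
      (∫⁻ x, E a x * f x ∂(iid ϖ)) * ∫⁻ x, E b x * g x ∂(iid ϖ) := by
  rw [← Pool.Agent.H96.Cop.lint_mul_shift ϖ (f := fun x => E a x * f x)
    (g := fun x => E b x * g x) (abm_dmul (h.de a) hfd) ((h.me a).mul hf) ((h.me b).mul hg)]
  refine lintegral_congr fun x => ?_
  rw [← hs, h.mu a b x]
  ring

lemma EB.gp {K : PMF ℕ} {ϖ : Measure ℝ} [IsProbabilityMeasure ϖ] {k : ℕ} {ϑ G : ℝ}
    {E : ℕ → (ℕ → ℝ) → ℝ≥0∞} (h : EB K ϖ k ϑ G E) (hM : MP (wc K k)) {p i : ℕ} (hpi : p ≤ i) :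
    ∫⁻ x, E i x * GP (wc K k) p i x ∂(iid ϖ) ≤
      ENNReal.ofReal (Real.exp (G * i / k)) * GP (wk K k ϑ) p i 0 := by
  unfold GP
  simp only [Finset.mul_sum]
  rw [lintegral_finsetSum]
  swap
  · exact fun t _ => (h.me i).mul ((hM.mp t).mul ((hM.mw _).comp (measurable_shift t)))
  refine Finset.sum_le_sum fun t ht => ?_
  rw [Finset.mem_range] at ht
  have e : t + (i - t) = i := by omega
  rw [h.ind e (hM.mp t) (hM.dp t) (hM.mw _), abm_exp0 e, abm_s0]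
  calc _ ≤ (ENNReal.ofReal (Real.exp (G * t / k)) * PF (wk K k ϑ) t 0) *
        (ENNReal.ofReal (Real.exp (G * (i - t : ℕ) / k)) * wk K k ϑ (i - t) 0) :=
        mul_le_mul' (h.b2 t) (h.b3 (i - t) (by omega))
    _ = _ := by ring

lemma EB.gq {K : PMF ℕ} {ϖ : Measure ℝ} [IsProbabilityMeasure ϖ] {k : ℕ} {ϑ G : ℝ}
    {E : ℕ → (ℕ → ℝ) → ℝ≥0∞} (h : EB K ϖ k ϑ G E) (hM : MP (wc K k)) (g s : ℕ) :
    ∫⁻ x, E s x * GQ (wc K k) g s x ∂(iid ϖ) ≤
      ENNReal.ofReal (Real.exp (G * s / k)) * GQ (wk K k ϑ) g s 0 := by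
  unfold GQ
  simp only [Finset.mul_sum]
  rw [lintegral_finsetSum]
  swap
  · exact fun t _ => (h.me s).mul ((hM.mw t).mul ((hM.mp _).comp (measurable_shift t)))
  refine Finset.sum_le_sum fun t ht => ?_
  rw [Finset.mem_Ioc] at ht
  have e : t + (s - t) = s := by omega
  rw [h.ind e (hM.mw t) (hM.dw t) (hM.mp _), abm_exp0 e, abm_s0]
  calc _ ≤ (ENNReal.ofReal (Real.exp (G * t / k)) * wk K k ϑ t 0) *
        (ENNReal.ofReal (Real.exp (G * (s - t : ℕ) / k)) * PF (wk K k ϑ) (s - t) 0) :=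
        mul_le_mul' (h.b3 t (by omega)) (h.b2 (s - t))
    _ = _ := by ring

lemma EB.ap {K : PMF ℕ} {ϖ : Measure ℝ} [IsProbabilityMeasure ϖ] {k : ℕ} {ϑ G : ℝ}
    {E : ℕ → (ℕ → ℝ) → ℝ≥0∞} (h : EB K ϖ k ϑ G E) (hM : MP (wc K k)) {R i : ℕ} (hR : 1 ≤ R)
    (hi : R * k ≤ i) :
    ∫⁻ x, E i x * AP (wc K k) be k R i x ∂(iid ϖ) ≤
      ENNReal.ofReal (Real.exp (G * i / k + ϑ)) * AP (wk K k ϑ) bo k R i 0 := by
  unfold AP
  simp only [Finset.mul_sum]
  rw [lintegral_finsetSum]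
  swap
  · exact fun e _ => (h.me i).mul ((abm_mbe 0 e).mul ((hM.mGP _ _).comp (measurable_shift e)))
  refine Finset.sum_le_sum fun e he => ?_
  rw [Finset.mem_range] at he
  have hk : k ≤ R * k := Nat.le_mul_of_pos_left k hR
  have e1 : e + (i - e) = i := by omega
  rw [h.ind e1 (abm_mbe 0 e) (abm_dbe 0 e) (hM.mGP _ _), abm_exp e1, abm_s0]
  calc _ ≤ ENNReal.ofReal (Real.exp (G * e / k + ϑ)) *
        (ENNReal.ofReal (Real.exp (G * (i - e : ℕ) / k)) *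
          GP (wk K k ϑ) (R * k - e) (i - e) 0) :=
        mul_le_mul' (h.b1 e he.le) (h.gp hM (by omega))
    _ = _ := by
      unfold bo
      ring

lemma EB.bq {K : PMF ℕ} {ϖ : Measure ℝ} [IsProbabilityMeasure ϖ] {k : ℕ} {ϑ G : ℝ}
    {E : ℕ → (ℕ → ℝ) → ℝ≥0∞} (h : EB K ϖ k ϑ G E) (hM : MP (wc K k)) (g L : ℕ) :
    ∫⁻ x, E L x * BQ (wc K k) be k g L x ∂(iid ϖ) ≤
      ENNReal.ofReal (Real.exp (G * L / k + ϑ)) * BQ (wk K k ϑ) bo k g L 0 := by
  unfold BQ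
  simp only [Finset.mul_sum]
  rw [lintegral_finsetSum]
  swap
  · exact fun r _ => (h.me L).mul ((hM.mGQ g r).mul (abm_mbe r L))
  refine Finset.sum_le_sum fun r hr => ?_
  rw [Finset.mem_Ico] at hr
  have e1 : r + (L - r) = L := by omega
  simp only [fun x => abm_sbe x hr.2.le]
  rw [h.ind e1 (hM.mGQ g r) (hM.dGQ g r) (abm_mbe 0 (L - r)),
    abm_exp (a := L - r) (b := r) (s := L) (by omega)]
  calc _ ≤ (ENNReal.ofReal (Real.exp (G * r / k)) * GQ (wk K k ϑ) g r 0) *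
        ENNReal.ofReal (Real.exp (G * (L - r : ℕ) / k + ϑ)) :=
        mul_le_mul' (h.gq hM g r) (h.b1 (L - r) (by omega))
    _ = _ := by
      unfold bo
      ring

/-! ## The exponential functions of the exponent -/

lemma abm_Mo {ϖ : Measure ℝ} {k : ℕ} {ϑ σ τ : ℝ} (h : EP ϖ k ϑ σ τ) (hk : 1 ≤ k) {v : ℝ}
    (hv : |v| ≤ 2) (e : ℕ) :
    Mo ϖ v ^ e ≤ Real.exp ((ϑ * (2 * v ^ 2 - v / 2 + 2 * σ * v) + τ) * (e / k)) ∧
    Real.exp ((ϑ * (2 * v ^ 2 - v / 2 + 2 * σ * v) - τ) * (e / k)) ≤ Mo ϖ v ^ e := by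
  have hk0 : (0 : ℝ) < k := by exact_mod_cast hk
  have hM : 0 ≤ Mo ϖ v := integral_nonneg fun z => (Real.exp_pos _).le
  have hy : (0 : ℝ) ≤ (e : ℝ) / k := by positivity
  have e1 : Mo ϖ v ^ e = (Mo ϖ v ^ k) ^ ((e : ℝ) / k) := by
    rw [← Real.rpow_natCast (Mo ϖ v) k, ← Real.rpow_mul hM, mul_div_cancel₀ _ hk0.ne',
      Real.rpow_natCast]
  rw [e1, Real.exp_mul, Real.exp_mul]
  exact ⟨Real.rpow_le_rpow (pow_nonneg hM _) (h.up v hv) hy,
    Real.rpow_le_rpow (Real.exp_pos _).le (h.lo v hv) hy⟩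

lemma abm_Sy (k : ℕ) (ϑ : ℝ) (x : ℕ → ℝ) (a b : ℕ) :
    Sy k ϑ x 0 (a + b) = Sy k ϑ x 0 a + Sy k ϑ (shift a x) 0 b := by
  unfold Sy
  rw [abm_Ha]
  push_cast
  ring

lemma abm_mSy (k : ℕ) (ϑ : ℝ) (n : ℕ) : Measurable (fun x : ℕ → ℝ => Sy k ϑ x 0 n) := by
  unfold Sy
  exact ((abm_mH 0 n).div_const 2).add_const _

/-- exponential of a multiple of the exponent -/
noncomputable def Es (k : ℕ) (ϑ s : ℝ) (n : ℕ) (x : ℕ → ℝ) : ℝ≥0∞ :=
  ENNReal.ofReal (Real.exp (s * Sy k ϑ x 0 n))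

lemma abm_mEs (k : ℕ) (ϑ s : ℝ) (n : ℕ) : Measurable (Es k ϑ s n) := by
  unfold Es
  exact ENNReal.measurable_ofReal.comp (Real.measurable_exp.comp ((abm_mSy k ϑ n).const_mul s))

lemma abm_Es0 (k : ℕ) (ϑ : ℝ) (n : ℕ) (x : ℕ → ℝ) : Es k ϑ 0 n x = 1 := by
  simp [Es]

lemma abm_b1 {ϖ : Measure ℝ} [IsProbabilityMeasure ϖ] {k : ℕ} {ϑ σ τ ω : ℝ}
    (h : PB ϖ k ϑ σ τ ω) {s G : ℝ} (hs : |s| ≤ 1 / 4) (hG : τ ≤ G) {e : ℕ} (he : e ≤ k) :
    ∫⁻ x, Es k ϑ s e x * be x 0 e ∂(iid ϖ) ≤ ENNReal.ofReal (Real.exp (G * e / k + ϑ)) := by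
  have hk0 : (0 : ℝ) < k := by exact_mod_cast h.k1
  have hσ := h.σω
  have hω := h.ω1
  have hϑ := h.ϑ0
  obtain ⟨s1, s2⟩ := abs_le.1 hs
  obtain ⟨σ1, σ2⟩ := abs_le.1 hσ
  have e1 : ∀ x : ℕ → ℝ, Es k ϑ s e x * be x 0 e =
      ENNReal.ofReal (Real.exp (s * (e * ϑ / (2 * k)))) *
        ENNReal.ofReal (Real.exp ((s - 1) / 2 * H x 0 e)) := by
    intro x
    unfold Es be Sy
    rw [← ENNReal.ofReal_mul (Real.exp_pos _).le, ← ENNReal.ofReal_mul (Real.exp_pos _).le,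
      ← Real.exp_add, ← Real.exp_add]
    congr 2
    push_cast
    ring
  simp only [e1]
  have hm : Measurable fun x : ℕ → ℝ => ENNReal.ofReal (Real.exp ((s - 1) / 2 * H x 0 e)) :=
    ENNReal.measurable_ofReal.comp (Real.measurable_exp.comp ((abm_mH 0 e).const_mul _))
  rw [lintegral_const_mul _ hm, Pool.Agent.H98.SLN.lint_exp_u ϖ h.ep.exp,
    ← ENNReal.ofReal_mul (Real.exp_pos _).le]
  apply ENNReal.ofReal_le_ofReal
  have hv : |(s - 1) / 2| ≤ 2 := abs_le.2 ⟨by linarith, by linarith⟩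
  have hM := (abm_Mo h.ep h.k1 hv e).1
  refine (mul_le_mul_of_nonneg_left hM (Real.exp_pos _).le).trans ?_
  rw [← Real.exp_add]
  apply Real.exp_le_exp.2
  set y : ℝ := (e : ℝ) / k with hy
  have hy0 : 0 ≤ y := by positivity
  have hy1 : y ≤ 1 := by
    rw [hy, div_le_one hk0]
    exact_mod_cast he
  have e2 : (e : ℝ) * ϑ / (2 * k) = ϑ / 2 * y := by rw [hy]; field_simp
  have e3 : G * e / k = G * y := by rw [hy]; ring
  rw [e2, e3]
  have h1 : s / 2 + (2 * ((s - 1) / 2) ^ 2 - (s - 1) / 2 / 2 + 2 * σ * ((s - 1) / 2)) ≤ 1 := by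
    nlinarith
  have h2 : ϑ * y * (s / 2 + (2 * ((s - 1) / 2) ^ 2 - (s - 1) / 2 / 2 + 2 * σ * ((s - 1) / 2))) ≤
      ϑ * y * 1 := mul_le_mul_of_nonneg_left h1 (by positivity)
  have h3 : ϑ * y ≤ ϑ * 1 := mul_le_mul_of_nonneg_left hy1 hϑ.le
  have h4 : τ * y ≤ G * y := mul_le_mul_of_nonneg_right hG hy0
  linarith

lemma abm_b3 {K : PMF ℕ} {ϖ : Measure ℝ} {k : ℕ} {ϑ s G : ℝ} {n : ℕ}
    (hi : n ≤ k → Integrable (fun x : ℕ → ℝ =>
      Real.exp (s * Sy k ϑ x 0 n) * Real.cosh (H x 0 n / 2)) (iid ϖ))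
    (hb : n ≤ k → ∫ x : ℕ → ℝ, Real.exp (s * Sy k ϑ x 0 n) * Real.cosh (H x 0 n / 2) ∂(iid ϖ) ≤
      Real.exp (G * n / k) * (1 + (ϑ / k * n) ^ 2)) :
    ∫⁻ x, Es k ϑ s n x * wc K k n x ∂(iid ϖ) ≤
      ENNReal.ofReal (Real.exp (G * n / k)) * wk K k ϑ n 0 := by
  by_cases hn : n ≤ k
  · have e1 : ∀ x : ℕ → ℝ, Es k ϑ s n x * wc K k n x = pk K n *
        ENNReal.ofReal (Real.exp (s * Sy k ϑ x 0 n) * Real.cosh (H x 0 n / 2)) := by
      intro x
      unfold Es wc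
      rw [if_pos hn, ENNReal.ofReal_mul (Real.exp_pos _).le]
      ring
    simp only [e1]
    have hm : Measurable fun x : ℕ → ℝ =>
        ENNReal.ofReal (Real.exp (s * Sy k ϑ x 0 n) * Real.cosh (H x 0 n / 2)) :=
      ENNReal.measurable_ofReal.comp ((Real.measurable_exp.comp
        ((abm_mSy k ϑ n).const_mul s)).mul (Real.measurable_cosh.comp ((abm_mH 0 n).div_const 2)))
    rw [lintegral_const_mul _ hm, ← ofReal_integral_eq_lintegral_ofReal (hi hn)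
      (Eventually.of_forall fun x => mul_nonneg (Real.exp_pos _).le (Real.cosh_pos _).le)]
    have hkk : 0 ≤ kk K n := by
      unfold kk
      positivity
    unfold wk kt pk
    rw [if_pos hn, ← ENNReal.ofReal_mul hkk, ← ENNReal.ofReal_mul (Real.exp_pos _).le]
    apply ENNReal.ofReal_le_ofReal
    calc _ ≤ kk K n * (Real.exp (G * n / k) * (1 + (ϑ / k * n) ^ 2)) :=
          mul_le_mul_of_nonneg_left (hb hn) hkk
      _ = _ := by ring
  · have e1 : ∀ x : ℕ → ℝ, Es k ϑ s n x * wc K k n x = 0 := by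
      intro x
      unfold wc
      rw [if_neg hn, mul_zero]
    simp [e1]

lemma abm_EB {K : PMF ℕ} {ϖ : Measure ℝ} [IsProbabilityMeasure ϖ] {k : ℕ} {ϑ σ τ ω : ℝ}
    (hEXB : T_EXB) (hMPF : T_MPF) (h : PB ϖ k ϑ σ τ ω) {s G : ℝ}
    (hs : (s = 0 ∧ G = ϑ / 2 + τ) ∨ ((s = 1 / 4 ∨ s = -(1 / 4)) ∧ G = ϑ / 2 + τ + 2 * ϑ)) :
    EB K ϖ k ϑ G (Es k ϑ s) := by
  have hϑ := h.ϑ0
  have hτ := h.τ0
  have hk0 : (0 : ℝ) < k := by exact_mod_cast h.k1
  have hs4 : |s| ≤ 1 / 4 := by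
    rcases hs with hs | ⟨hs | hs, -⟩
    · rw [hs.1]; norm_num
    · rw [hs]; norm_num
    · rw [hs]; norm_num
  have hG : ϑ / 2 + τ ≤ G := by
    rcases hs with hs | hs
    · rw [hs.2]
    · rw [hs.2]; linarith
  refine ⟨abm_mEs k ϑ s, ?_, ?_, fun e he => abm_b1 h hs4 (by linarith) he, ?_, ?_⟩
  · intro n x x' hx
    simp only [Es, Sy, abm_dH 0 n x x' hx]
  · intro a b x
    unfold Es
    rw [abm_Sy, mul_add, Real.exp_add, ENNReal.ofReal_mul (Real.exp_pos _).le]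
  · intro t
    obtain ⟨h1, h2, h3, -⟩ := hMPF K ϖ k ϑ σ τ ω h t
    rw [abm_PFk]
    unfold MH at h1 h2 h3
    rcases hs with ⟨hs, hG'⟩ | ⟨hs | hs, hG'⟩
    · subst hs hG'
      simp only [abm_Es0, one_mul]
      rwa [ENNReal.ofReal_mul (Real.exp_pos _).le] at h1
    · subst hs hG'
      rw [← mul_assoc, ← Real.exp_add, ENNReal.ofReal_mul (Real.exp_pos _).le] at h3
      have e1 : (ϑ / 2 + τ + 2 * ϑ) * t / k = 2 * ϑ * t / k + (ϑ / 2 + τ) * t / k := by ring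
      have e2 : ∀ x : ℕ → ℝ, Es k ϑ (1 / 4) t x =
          ENNReal.ofReal (Real.exp (Sy k ϑ x 0 t / 4)) := by
        intro x
        unfold Es
        congr 2
        ring
      simp only [e1, e2]
      exact h3
    · subst hs hG'
      rw [ENNReal.ofReal_mul (Real.exp_pos _).le] at h2
      have e2 : ∀ x : ℕ → ℝ, Es k ϑ (-(1 / 4)) t x =
          ENNReal.ofReal (Real.exp (-(Sy k ϑ x 0 t / 4))) := by
        intro x
        unfold Es
        congr 2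
        ring
      simp only [e2]
      refine h2.trans (mul_le_mul' (ENNReal.ofReal_le_ofReal (Real.exp_le_exp.2 ?_)) le_rfl)
      have : 0 ≤ 2 * ϑ * t / k := by positivity
      have e1 : (ϑ / 2 + τ + 2 * ϑ) * t / k = 2 * ϑ * t / k + (ϑ / 2 + τ) * t / k := by ring
      linarith
  · intro n hn1
    have hq : (1 : ℝ) ≤ 1 + (ϑ / k * n) ^ 2 := by nlinarith [sq_nonneg (ϑ / k * n)]
    rcases hs with ⟨hs, hG'⟩ | ⟨hs | hs, hG'⟩
    · subst hs hG'
      refine abm_b3 (fun hn => ?_) (fun hn => ?_)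
      · obtain ⟨i1, -⟩ := hEXB ϖ k ϑ σ τ ω h n hn1 hn
        simpa using i1
      · obtain ⟨-, -, -, -, -, -, b7, -⟩ := hEXB ϖ k ϑ σ τ ω h n hn1 hn
        simp only [zero_mul, Real.exp_zero, one_mul]
        refine b7.trans (le_of_eq ?_)
        congr 2
        ring
    · subst hs hG'
      have e2 : ∀ x : ℕ → ℝ, 1 / 4 * Sy k ϑ x 0 n = Sy k ϑ x 0 n / 4 := fun x => by ring
      refine abm_b3 (fun hn => ?_) (fun hn => ?_)
      · obtain ⟨-, -, -, i4, -⟩ := hEXB ϖ k ϑ σ τ ω h n hn1 hn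
        simpa only [e2] using i4
      · obtain ⟨-, -, -, -, -, -, -, -, -, b10, -⟩ := hEXB ϖ k ϑ σ τ ω h n hn1 hn
        simp only [e2]
        refine b10.trans ?_
        refine le_trans (Real.exp_le_exp.2 ?_) (le_mul_of_one_le_right (Real.exp_pos _).le hq)
        have e1 : (ϑ / 2 + τ + 2 * ϑ) * n / k = 2 * (ϑ * n / k) + τ * n / k + ϑ / 2 * n / k := by
          ring
        have : 0 ≤ ϑ / 2 * n / k := by positivity
        linarith
    · subst hs hG'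
      have e2 : ∀ x : ℕ → ℝ, -(1 / 4) * Sy k ϑ x 0 n = -(Sy k ϑ x 0 n / 4) := fun x => by ring
      refine abm_b3 (fun hn => ?_) (fun hn => ?_)
      · obtain ⟨-, -, i3, -⟩ := hEXB ϖ k ϑ σ τ ω h n hn1 hn
        simpa only [e2] using i3
      · obtain ⟨-, -, -, -, -, -, -, -, b9, -⟩ := hEXB ϖ k ϑ σ τ ω h n hn1 hn
        simp only [e2]
        refine b9.trans (mul_le_mul_of_nonneg_right (Real.exp_le_exp.2 ?_) (by positivity))
        have e1 : (ϑ / 2 + τ + 2 * ϑ) * n / k = ϑ * n / k / 2 + τ * n / k + 2 * ϑ * n / k := by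
          ring
        have : 0 ≤ 2 * ϑ * n / k := by positivity
        linarith

/-! ## The exponent -/

lemma abm_abs (k : ℕ) (ϑ : ℝ) (n : ℕ) (x : ℕ → ℝ) :
    ENNReal.ofReal |Sy k ϑ x 0 n| ≤
      ENNReal.ofReal 4 * (Es k ϑ (1 / 4) n x + Es k ϑ (-(1 / 4)) n x) := by
  unfold Es
  rw [← ENNReal.ofReal_add (Real.exp_pos _).le (Real.exp_pos _).le,
    ← ENNReal.ofReal_mul (by norm_num)]
  apply ENNReal.ofReal_le_ofReal
  set z := Sy k ϑ x 0 n
  have h1 := Real.add_one_le_exp (1 / 4 * z)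
  have h2 := Real.add_one_le_exp (-(1 / 4) * z)
  have h3 := Real.exp_pos (1 / 4 * z)
  have h4 := Real.exp_pos (-(1 / 4) * z)
  rcases abs_cases z with ⟨h, -⟩ | ⟨h, -⟩ <;> rw [h] <;> linarith

lemma abm_S {ϖ : Measure ℝ} {k R n : ℕ} {ϑ σ τ ω : ℝ} (h : PB ϖ k ϑ σ τ ω)
    (hn : n ≤ (R + 1) * k) {X : (ℕ → ℝ) → ℝ≥0∞} (hX : Measurable X) {a : ℝ≥0∞}
    (h1 : ∫⁻ x, Es k ϑ (1 / 4) n x * X x ∂(iid ϖ) ≤
      ENNReal.ofReal (Real.exp ((ϑ / 2 + τ + 2 * ϑ) * n / k + ϑ)) * a)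
    (h2 : ∫⁻ x, Es k ϑ (-(1 / 4)) n x * X x ∂(iid ϖ) ≤
      ENNReal.ofReal (Real.exp ((ϑ / 2 + τ + 2 * ϑ) * n / k + ϑ)) * a) :
    ∫⁻ x, ENNReal.ofReal |Sy k ϑ x 0 n| * X x ∂(iid ϖ) ≤ ENNReal.ofReal (Real.exp (2 * R + 6)) *
      (ENNReal.ofReal (Real.exp ((ϑ / 2 + τ) * n / k + ϑ)) * a) := by
  have hk0 : (0 : ℝ) < k := by exact_mod_cast h.k1
  have hϑ := h.ϑ0
  have hϑ1 := h.ϑ1
  calc _ ≤ ∫⁻ x, ENNReal.ofReal 4 * (Es k ϑ (1 / 4) n x * X x + Es k ϑ (-(1 / 4)) n x * X x)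
        ∂(iid ϖ) := by
        refine lintegral_mono fun x => ?_
        refine (mul_le_mul' (abm_abs k ϑ n x) le_rfl).trans (le_of_eq ?_)
        ring
    _ = ENNReal.ofReal 4 * (∫⁻ x, Es k ϑ (1 / 4) n x * X x ∂(iid ϖ) +
        ∫⁻ x, Es k ϑ (-(1 / 4)) n x * X x ∂(iid ϖ)) := by
        have m1 : Measurable fun x => Es k ϑ (1 / 4) n x * X x := (abm_mEs k ϑ _ n).mul hX
        have m2 : Measurable fun x => Es k ϑ (-(1 / 4)) n x * X x := (abm_mEs k ϑ _ n).mul hX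
        have m3 : Measurable fun x => Es k ϑ (1 / 4) n x * X x + Es k ϑ (-(1 / 4)) n x * X x :=
          m1.add m2
        rw [lintegral_const_mul _ m3, lintegral_add_left m1]
    _ ≤ ENNReal.ofReal 4 * (ENNReal.ofReal (Real.exp ((ϑ / 2 + τ + 2 * ϑ) * n / k + ϑ)) * a +
        ENNReal.ofReal (Real.exp ((ϑ / 2 + τ + 2 * ϑ) * n / k + ϑ)) * a) :=
        mul_le_mul' le_rfl (add_le_add h1 h2)
    _ = ENNReal.ofReal (8 * Real.exp ((ϑ / 2 + τ + 2 * ϑ) * n / k + ϑ)) * a := by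
        rw [ENNReal.ofReal_mul (by norm_num), show (8 : ℝ) = 4 * 2 by norm_num,
          ENNReal.ofReal_mul (by norm_num), ENNReal.ofReal_ofNat 2]
        ring
    _ ≤ _ := by
        rw [← mul_assoc, ← ENNReal.ofReal_mul (Real.exp_pos _).le]
        refine mul_le_mul' (ENNReal.ofReal_le_ofReal ?_) le_rfl
        have h8 : (8 : ℝ) ≤ Real.exp 3 := by
          have h := Real.add_one_le_exp (1 : ℝ)
          have e : Real.exp 3 = Real.exp 1 ^ 3 := by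
            rw [← Real.exp_nat_mul]
            norm_num
          rw [e]
          calc (8 : ℝ) = 2 ^ 3 := by norm_num
            _ ≤ _ := pow_le_pow_left₀ (by norm_num) (by linarith) 3
        refine (mul_le_mul_of_nonneg_right h8 (Real.exp_pos _).le).trans ?_
        rw [← Real.exp_add, ← Real.exp_add]
        apply Real.exp_le_exp.2
        have hy : (n : ℝ) / k ≤ R + 1 := by
          rw [div_le_iff₀ hk0]
          exact_mod_cast hn
        have hy0 : (0 : ℝ) ≤ (n : ℝ) / k := by positivity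
        have e1 : (ϑ / 2 + τ + 2 * ϑ) * n / k = (ϑ / 2 + τ) * n / k + 2 * ϑ * (n / k) := by ring
        have h5 : 2 * ϑ * ((n : ℝ) / k) ≤ 2 * (1 / 64) * (R + 1) :=
          mul_le_mul (by linarith) hy hy0 (by norm_num)
        have hR : (0 : ℝ) ≤ R := Nat.cast_nonneg R
        rw [e1]
        linarith

/-! ## Square means -/

lemma abm_LLbe {ϖ : Measure ℝ} [IsProbabilityMeasure ϖ] {k : ℕ} {ϑ σ τ ω : ℝ}
    (h : PB ϖ k ϑ σ τ ω) {e : ℕ} (he : e ≤ k) : LL (iid ϖ) ϑ (fun x => be x 0 e) := by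
  have hk0 : (0 : ℝ) < k := by exact_mod_cast h.k1
  have hϑ := h.ϑ0
  have hτω := h.τω
  have hω0 := h.ω0
  have hω1 := h.ω1
  unfold LL
  have e1 : ∀ x : ℕ → ℝ, be x 0 e ^ (2 : ℝ) = ENNReal.ofReal (Real.exp (-1 * H x 0 e)) := by
    intro x
    unfold be
    rw [ENNReal.ofReal_rpow_of_pos (Real.exp_pos _), ← Real.exp_mul]
    congr 2
    ring
  have e2 : ∀ x : ℕ → ℝ, be x 0 e = ENNReal.ofReal (Real.exp (-(1 / 2) * H x 0 e)) := by
    intro x
    unfold be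
    congr 2
    ring
  simp only [e1]
  simp only [e2]
  have hM : 0 ≤ Mo ϖ (-1) := integral_nonneg fun z => (Real.exp_pos _).le
  rw [Pool.Agent.H98.SLN.lint_exp_u ϖ h.ep.exp, Pool.Agent.H98.SLN.lint_exp_u ϖ h.ep.exp,
    ENNReal.ofReal_rpow_of_nonneg (pow_nonneg hM _) (by norm_num),
    ← ENNReal.ofReal_mul (Real.exp_pos _).le]
  apply ENNReal.ofReal_le_ofReal
  have h1 := (abm_Mo h.ep h.k1 (v := -1) (by norm_num) e).1
  have h2 := (abm_Mo h.ep h.k1 (v := -(1 / 2)) (by norm_num) e).2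
  refine (Real.rpow_le_rpow (pow_nonneg hM _) h1 (by norm_num)).trans ?_
  refine le_trans ?_ (mul_le_mul_of_nonneg_left h2 (Real.exp_pos _).le)
  rw [← Real.exp_mul, ← Real.exp_add]
  apply Real.exp_le_exp.2
  set y : ℝ := (e : ℝ) / k with hy
  have hy0 : 0 ≤ y := by positivity
  have hy1 : y ≤ 1 := by
    rw [hy, div_le_one hk0]
    exact_mod_cast he
  have hw : ω ^ 2 ≤ 1 := by nlinarith
  have hτ : τ ≤ ϑ / 2 ^ 10 := by nlinarith
  have h3 : y * (ϑ / 2 + 3 / 2 * τ) ≤ 1 * (ϑ / 2 + 3 / 2 * (ϑ / 2 ^ 10)) :=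
    mul_le_mul hy1 (by linarith) (by have := h.τ0; positivity) (by norm_num)
  nlinarith

lemma abm_LLS (hLLC : T_LLC) {P : Measure (ℕ → ℝ)} [IsProbabilityMeasure P] {c : ℝ} (S : Finset ℕ)
    {X : ℕ → (ℕ → ℝ) → ℝ≥0∞} (hm : ∀ i, Measurable (X i)) (h : ∀ i ∈ S, LL P c (X i)) :
    LL P c fun x => ∑ i ∈ S, X i x := by
  have hsub : S ⊆ Finset.range (S.sup id + 1) := by
    intro i hi
    rw [Finset.mem_range]
    have : i ≤ S.sup id := Finset.le_sup (f := id) hi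
    omega
  have h1 := hLLC.1 P c (S.sup id + 1) (fun i => if i ∈ S then X i else fun _ => 0)
    (fun i => by
      by_cases hi : i ∈ S
      · simpa only [if_pos hi] using hm i
      · simp only [if_neg hi]
        exact measurable_const)
    (fun i _ => by
      by_cases hi : i ∈ S
      · simpa only [if_pos hi] using h i hi
      · simp only [if_neg hi]
        unfold LL
        simp)
  have e : (fun x => ∑ i ∈ Finset.range (S.sup id + 1),
      (if i ∈ S then X i else fun _ => 0) x) = fun x => ∑ i ∈ S, X i x := by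
    funext x
    rw [← Finset.sum_subset hsub]
    · refine Finset.sum_congr rfl fun i hi => ?_
      rw [if_pos hi]
    · intro i _ hi
      rw [if_neg hi]
  rwa [e] at h1

lemma abm_LLGP (hLLC : T_LLC) (hLLP : T_LLP) {K : PMF ℕ} {ϖ : Measure ℝ} [IsProbabilityMeasure ϖ]
    {k : ℕ} {ϑ σ τ ω : ℝ} (h : PB ϖ k ϑ σ τ ω) (hM : MP (wc K k)) {p i : ℕ} (hpi : p ≤ i) :
    LL (iid ϖ) ((ϑ ^ 2 + 2 * τ) * i / k) (GP (wc K k) p i) := by
  obtain ⟨hw, hp⟩ := hLLP K ϖ k ϑ σ τ ω h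
  refine abm_LLS hLLC (Finset.range p)
    (fun t => (hM.mp t).mul ((hM.mw _).comp (measurable_shift t))) fun t ht => ?_
  rw [Finset.mem_range] at ht
  have h1 := hLLC.2.1 ϖ t (PF (wc K k) t) (wc K k (i - t)) _ _ (hM.mp t) (hM.dp t)
    (hM.mw (i - t)) (hp t) (hw (i - t) (by omega))
  refine hLLC.2.2.1 _ _ _ _ (le_of_eq ?_) h1
  have e : (i : ℝ) = (t : ℝ) + ((i - t : ℕ) : ℝ) := by
    rw [← Nat.cast_add]
    congr 1
    omega
  rw [e]
  ring

lemma abm_LLGQ (hLLC : T_LLC) (hLLP : T_LLP) {K : PMF ℕ} {ϖ : Measure ℝ} [IsProbabilityMeasure ϖ]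
    {k : ℕ} {ϑ σ τ ω : ℝ} (h : PB ϖ k ϑ σ τ ω) (hM : MP (wc K k)) (g s : ℕ) :
    LL (iid ϖ) ((ϑ ^ 2 + 2 * τ) * s / k) (GQ (wc K k) g s) := by
  obtain ⟨hw, hp⟩ := hLLP K ϖ k ϑ σ τ ω h
  refine abm_LLS hLLC (Finset.Ioc g s)
    (fun t => (hM.mw t).mul ((hM.mp _).comp (measurable_shift t))) fun t ht => ?_
  rw [Finset.mem_Ioc] at ht
  have h1 := hLLC.2.1 ϖ t (wc K k t) (PF (wc K k) (s - t)) _ _ (hM.mw t) (hM.dw t)
    (hM.mp (s - t)) (hw t (by omega)) (hp (s - t))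
  refine hLLC.2.2.1 _ _ _ _ (le_of_eq ?_) h1
  have e : (s : ℝ) = (t : ℝ) + ((s - t : ℕ) : ℝ) := by
    rw [← Nat.cast_add]
    congr 1
    omega
  rw [e]
  ring

lemma abm_ce {ϖ : Measure ℝ} {k : ℕ} {ϑ σ τ ω : ℝ} (h : PB ϖ k ϑ σ τ ω) {R n : ℕ}
    (hn : n ≤ (R + 1) * k) : ϑ + (ϑ ^ 2 + 2 * τ) * n / k ≤ ce ϑ τ R := by
  have hk0 : (0 : ℝ) < k := by exact_mod_cast h.k1
  have hτ := h.τ0
  have hy : (n : ℝ) / k ≤ R + 1 := by
    rw [div_le_iff₀ hk0]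
    exact_mod_cast hn
  unfold ce
  rw [mul_div_assoc]
  have := mul_le_mul_of_nonneg_left hy (show 0 ≤ ϑ ^ 2 + 2 * τ by positivity)
  linarith

theorem pf_ABM (hPFM : Pool.Agent.H99.CE.T_PFM) (hEXB : T_EXB) (hMPF : T_MPF) (hLLC : T_LLC)
    (hLLP : T_LLP) : T_ABM := by
  intro K ϖ k R ϑ σ τ ω h hR2
  have := h.ep.prob
  have hM := abm_MP hPFM K k
  have hk1 := h.k1
  have hR : 1 ≤ R := by omega
  have hkR : k ≤ R * k := Nat.le_mul_of_pos_left k hR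
  have hR1 : (R + 1) * k = R * k + k := by ring
  have E0 : EB K ϖ k ϑ (ϑ / 2 + τ) (Es k ϑ 0) := abm_EB hEXB hMPF h (Or.inl ⟨rfl, rfl⟩)
  have E1 : EB K ϖ k ϑ (ϑ / 2 + τ + 2 * ϑ) (Es k ϑ (1 / 4)) :=
    abm_EB hEXB hMPF h (Or.inr ⟨Or.inl rfl, rfl⟩)
  have E2 : EB K ϖ k ϑ (ϑ / 2 + τ + 2 * ϑ) (Es k ϑ (-(1 / 4))) :=
    abm_EB hEXB hMPF h (Or.inr ⟨Or.inr rfl, rfl⟩)
  refine ⟨fun i hi hi' => ⟨hM.mAP k R i, hM.dAP hR hi, ?_, ?_, ?_⟩,
    fun g => ⟨hM.mBQ k g (g + R * k), ?_, ?_, ?_⟩⟩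
  · refine abm_LLS hLLC (Finset.range k)
      (fun e => (abm_mbe 0 e).mul ((hM.mGP _ _).comp (measurable_shift e))) fun e he => ?_
    rw [Finset.mem_range] at he
    have h1 := hLLC.2.1 ϖ e (fun x => be x 0 e) (GP (wc K k) (R * k - e) (i - e)) _ _
      (abm_mbe 0 e) (abm_dbe 0 e) (hM.mGP _ _) (abm_LLbe h he.le)
      (abm_LLGP hLLC hLLP h hM (by omega))
    exact hLLC.2.2.1 _ _ _ _ (abm_ce h (by omega)) h1
  · have h1 := E0.ap hM hR hi
    simpa only [abm_Es0, one_mul] using h1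
  · exact abm_S h hi'.le (hM.mAP k R i) (E1.ap hM hR hi) (E2.ap hM hR hi)
  · rcases lt_or_ge g k with hg | hg
    · refine abm_LLS hLLC (Finset.Ico (g + R * k - k) (g + R * k))
        (fun r => (hM.mGQ g r).mul (abm_mbe r _)) fun r hr => ?_
      rw [Finset.mem_Ico] at hr
      have h1 := hLLC.2.1 ϖ r (GQ (wc K k) g r) (fun x => be x 0 (g + R * k - r)) _ _
        (hM.mGQ g r) (hM.dGQ g r) (abm_mbe 0 _) (abm_LLGQ hLLC hLLP h hM g r)
        (abm_LLbe h (by omega))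
      simp only [fun x => abm_sbe x hr.2.le]
      refine hLLC.2.2.1 _ _ _ _ ?_ h1
      rw [add_comm]
      exact abm_ce h (by omega)
    · have e0 : ∀ x, BQ (wc K k) be k g (g + R * k) x = 0 := by
        intro x
        unfold BQ
        refine Finset.sum_eq_zero fun r _ => ?_
        have : GQ (wc K k) g r x = 0 := by
          unfold GQ
          refine Finset.sum_eq_zero fun t ht => ?_
          rw [Finset.mem_Ioc] at ht
          unfold wc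
          rw [if_neg (by omega), zero_mul]
        rw [this, zero_mul]
      unfold LL
      simp [e0]
  · have h1 := E0.bq hM g (g + R * k)
    simpa only [abm_Es0, one_mul] using h1
  · rcases lt_or_ge g k with hg | hg
    · exact abm_S h (by omega) (hM.mBQ k g _) (E1.bq hM g _) (E2.bq hM g _)
    · have e0 : ∀ x, BQ (wc K k) be k g (g + R * k) x = 0 := by
        intro x
        unfold BQ
        refine Finset.sum_eq_zero fun r _ => ?_
        have : GQ (wc K k) g r x = 0 := by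
          unfold GQ
          refine Finset.sum_eq_zero fun t ht => ?_
          rw [Finset.mem_Ioc] at ht
          unfold wc
          rw [if_neg (by omega), zero_mul]
        rw [this, zero_mul]
      simp [e0]

end Pool.Agent.H63.EX
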