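import Pool.Agent.H98.EX.BTargets

/-!
# Row MNG of the board exa_modules: the neutral stretches between the boxes (helper63)
-/

set_option autoImplicit false

open MeasureTheory ProbabilityTheory Filter Topology
open scoped ENNReal
open Pool.Agent.H95 Pool.Agent.H95.Cop
open Pool.Agent.H55.CG (Mo)
open Pool.Agent.H96.Cop (ex pk Wn chargeLaw)
open Pool.Agent.H99.CE (NX w0 w1 BX CT TT Cc Gf lg tb Reg)
open Pool.Agent.H98.SLN (RG gl TS)
open Pool.Agent.H98.EX

namespace Pool.Agent.H63.EX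

/-! ## Shifts and measurability -/

lemma mng_mH (a b : ℕ) : Measurable (fun x : ℕ → ℝ => H x a b) := by
  unfold H
  exact Finset.measurable_sum _ fun i _ => measurable_pi_apply i

lemma mng_mSy (k : ℕ) (ϑ : ℝ) (a b : ℕ) : Measurable (fun x : ℕ → ℝ => Sy k ϑ x a b) := by
  unfold Sy
  exact ((mng_mH a b).div_const 2).add_const _

lemma mng_myk (k : ℕ) (ϑ : ℝ) : Measurable (fun x : ℕ → ℝ => yk k ϑ x) := by
  refine measurable_pi_lambda _ fun i => ?_
  unfold yk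
  exact ((mng_mH _ _).div_const 2).add_const _

lemma mng_mVR (n : ℕ) : Measurable (fun y : ℕ → ℝ => VR n y) := by
  unfold VR
  exact Finset.measurable_sum _ fun i _ => Real.measurable_exp.comp (mng_mH 0 (i + 1)).neg

lemma mng_mVL (n : ℕ) : Measurable (fun y : ℕ → ℝ => VL n y) := by
  unfold VL
  exact Finset.measurable_sum _ fun i _ => Real.measurable_exp.comp (mng_mH 0 (i + 1))

lemma mng_mNL (R c : ℕ) : Measurable (fun y : ℕ → ℝ => NL R y c) := by
  unfold NL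
  have h1 : Measurable fun y : ℕ → ℝ => VR R (shift c y) := (mng_mVR R).comp (measurable_shift c)
  have h2 : Measurable fun y : ℕ → ℝ => VL R (fun j => y (c - 1 - j)) :=
    (mng_mVL R).comp (measurable_pi_lambda _ fun j => measurable_pi_apply _)
  exact (measurable_const.add h1).add h2

lemma mng_mNR (R c : ℕ) : Measurable (fun y : ℕ → ℝ => NR R y c) := by
  unfold NR
  have h1 : Measurable fun y : ℕ → ℝ => VL R (shift (c + 1) y) :=
    (mng_mVL R).comp (measurable_shift (c + 1))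
  have h2 : Measurable fun y : ℕ → ℝ => VR R (fun j => y (c - j)) :=
    (mng_mVR R).comp (measurable_pi_lambda _ fun j => measurable_pi_apply _)
  exact (measurable_const.add h2).add h1

lemma mng_Hcongr {y y' : ℕ → ℝ} {n : ℕ} (h : ∀ i < n, y i = y' i) : H y 0 n = H y' 0 n := by
  unfold H
  exact Finset.sum_congr rfl fun i hi => h i (Finset.mem_Ico.1 hi).2

lemma mng_VRc {R : ℕ} {y y' : ℕ → ℝ} (h : ∀ i < R, y i = y' i) : VR R y = VR R y' := by
  unfold VR
  refine Finset.sum_congr rfl fun i hi => ?_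
  rw [Finset.mem_range] at hi
  rw [mng_Hcongr fun j hj => h j (by omega)]

lemma mng_VLc {R : ℕ} {y y' : ℕ → ℝ} (h : ∀ i < R, y i = y' i) : VL R y = VL R y' := by
  unfold VL
  refine Finset.sum_congr rfl fun i hi => ?_
  rw [Finset.mem_range] at hi
  rw [mng_Hcongr fun j hj => h j (by omega)]

lemma mng_NLs (R m : ℕ) (y : ℕ → ℝ) : NL R (shift m y) R = NL R y (R + m) := by
  unfold NL
  rw [shift_shift]
  congr 1
  refine mng_VLc fun i hi => ?_
  simp only [shift]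
  congr 1
  omega

lemma mng_NRs (R m c : ℕ) (hc : R ≤ c) (y : ℕ → ℝ) : NR R (shift m y) c = NR R y (c + m) := by
  unfold NR
  rw [shift_shift]
  have e : c + 1 + m = c + m + 1 := by omega
  rw [e]
  congr 2
  refine mng_VRc fun i hi => ?_
  simp only [shift]
  congr 1
  omega

lemma mng_yks (k m : ℕ) (ϑ : ℝ) (x : ℕ → ℝ) : yk k ϑ (shift (m * k) x) = shift m (yk k ϑ x) := by
  funext i
  simp only [yk, shift]
  have e := Pool.Agent.H96.Cop.H_shift x (m * k) (i * k) ((i + 1) * k)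
  have e1 : i * k + m * k = (i + m) * k := by ring
  have e2 : (i + 1) * k + m * k = (i + m + 1) * k := by ring
  rw [e1, e2] at e
  rw [← e]

lemma mng_Sys (k s a b : ℕ) (ϑ : ℝ) (x : ℕ → ℝ) :
    Sy k ϑ (shift s x) a b = Sy k ϑ x (a + s) (b + s) := by
  unfold Sy
  rw [Pool.Agent.H96.Cop.H_shift]
  push_cast
  ring

lemma mng_HS {k : ℕ} (hk : 1 ≤ k) (ϑ : ℝ) (x : ℕ → ℝ) (a n : ℕ) :
    H (yk k ϑ x) a (a + n) = Sy k ϑ x (a * k) ((a + n) * k) := by
  have hk0 : (k : ℝ) ≠ 0 := by positivity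
  induction n with
  | zero => simp [H, Sy]
  | succ n ih =>
    have e1 : H (yk k ϑ x) a (a + (n + 1)) = H (yk k ϑ x) a (a + n) + yk k ϑ x (a + n) := by
      unfold H
      rw [← add_assoc, Finset.sum_Ico_succ_top (by omega)]
    have e2 : H x (a * k) ((a + (n + 1)) * k) =
        H x (a * k) ((a + n) * k) + H x ((a + n) * k) ((a + n + 1) * k) := by
      unfold H
      rw [← add_assoc]
      exact (Finset.sum_Ico_consecutive _ (Nat.mul_le_mul_right k (by omega))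
        (Nat.mul_le_mul_right k (by omega))).symm
    rw [e1, ih]
    unfold Sy yk
    rw [e2]
    push_cast
    field_simp
    ring

lemma mng_meas (ν : Measure ℝ) [IsProbabilityMeasure ν] (s : ℕ) {f : (ℕ → ℝ) → ℝ≥0∞}
    (hf : Measurable f) : ∫⁻ x, f (shift s x) ∂(iid ν) = ∫⁻ x, f x ∂(iid ν) :=
  (measurePreserving_shift ν s).lintegral_comp hf

/-! ## Sums -/

lemma mng_s1 {κ : ℝ} (hκ : 0 < κ) (N : ℕ) :
    ∑ d ∈ Finset.range N, Real.exp (-(κ * ((d : ℝ) + 1))) ≤ 1 / κ := by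
  have hq : Real.exp (-κ) < 1 := by
    rw [← Real.exp_zero]
    exact Real.exp_lt_exp.2 (by linarith)
  have hq0 := Real.exp_pos (-κ)
  have h1 : ∀ d : ℕ, Real.exp (-(κ * ((d : ℝ) + 1))) = Real.exp (-κ) * Real.exp (-κ) ^ d := by
    intro d
    rw [← Real.exp_nat_mul, ← Real.exp_add]
    congr 1
    ring
  simp only [h1]
  rw [← Finset.mul_sum]
  have h2 := sum_le_hasSum (Finset.range N) (fun i _ => by positivity)
    (hasSum_geometric_of_lt_one hq0.le hq)
  refine (mul_le_mul_of_nonneg_left h2 hq0.le).trans ?_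
  rw [← div_eq_mul_inv, div_le_div_iff₀ (by linarith) hκ]
  have h3 := Real.add_one_le_exp κ
  have h4 : Real.exp (-κ) * Real.exp κ = 1 := by rw [← Real.exp_add]; simp
  nlinarith

lemma mng_s2 {κ : ℝ} (hκ : 0 < κ) (N : ℕ) :
    ∑ d ∈ Finset.range N, ((d : ℝ) + 1) * Real.exp (-(κ * ((d : ℝ) + 1))) ≤ 1 / κ ^ 2 := by
  have hq : Real.exp (-κ) < 1 := by
    rw [← Real.exp_zero]
    exact Real.exp_lt_exp.2 (by linarith)
  have hq0 := Real.exp_pos (-κ)
  have h1 : ∀ d : ℕ, ((d : ℝ) + 1) * Real.exp (-(κ * ((d : ℝ) + 1))) =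
      ((d + 1 : ℕ) : ℝ) * Real.exp (-κ) ^ (d + 1) := by
    intro d
    rw [← Real.exp_nat_mul]
    push_cast
    congr 2
    ring
  simp only [h1]
  have h0 : ∑ d ∈ Finset.range N, ((d + 1 : ℕ) : ℝ) * Real.exp (-κ) ^ (d + 1) =
      ∑ d ∈ Finset.range (N + 1), (d : ℝ) * Real.exp (-κ) ^ d := by
    rw [Finset.sum_range_succ']
    simp
  rw [h0]
  have h2 := sum_le_hasSum (Finset.range (N + 1)) (fun i _ => by positivity)
    (hasSum_coe_mul_geometric_of_norm_lt_one (𝕜 := ℝ) (r := Real.exp (-κ))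
      (by rw [Real.norm_of_nonneg hq0.le]; exact hq))
  refine h2.trans ?_
  rw [div_le_div_iff₀ (by nlinarith) (by positivity), one_mul]
  have h3 : κ / 2 ≤ Real.sinh (κ / 2) := Real.self_le_sinh_iff.2 (by linarith)
  rw [Real.sinh_eq] at h3
  set p := Real.exp (-(κ / 2)) with hp
  have hp0 : 0 < p := Real.exp_pos _
  have e1 : Real.exp (-κ) = p ^ 2 := by
    rw [hp, ← Real.exp_nat_mul]
    congr 1
    push_cast
    ring
  have e2 : Real.exp (κ / 2) * p = 1 := by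
    rw [hp, ← Real.exp_add]
    simp
  have h4 : κ * p ≤ 1 - p ^ 2 := by nlinarith
  rw [e1]
  have h5 : 0 ≤ κ * p := by positivity
  nlinarith

lemma mng_cells (n0 J : ℕ) (f : ℕ → ℝ≥0∞) :
    ∑ j ∈ Finset.range J, ∑ c ∈ TT n0 j, f c = ∑ c ∈ Finset.range (J * n0), f c := by
  induction J with
  | zero => simp
  | succ J ih =>
    rw [Finset.sum_range_succ, ih]
    unfold TT
    rw [Finset.range_eq_Ico, Finset.sum_Ico_consecutive _ (Nat.zero_le _)
      (Nat.mul_le_mul_right n0 (by omega)), Finset.range_eq_Ico]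

lemma mng_pairs (n0 J : ℕ) (g : ℕ → ℝ≥0∞) :
    ∑ j ∈ Finset.range J, ∑ c ∈ Finset.range n0, ∑ c' ∈ TT n0 j,
      (if c ≤ c' then g (c' - c) else 0) ≤ n0 * ∑ d ∈ Finset.range (J * n0), g d := by
  rw [Finset.sum_comm]
  calc _ ≤ ∑ c ∈ Finset.range n0, ∑ d ∈ Finset.range (J * n0), g d := by
        refine Finset.sum_le_sum fun c _ => ?_
        rw [mng_cells n0 J (fun c' => if c ≤ c' then g (c' - c) else 0), ← Finset.sum_filter]
        have e : (Finset.range (J * n0)).filter (fun c' => c ≤ c') = Finset.Ico c (J * n0) := by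
          ext i
          simp only [Finset.mem_filter, Finset.mem_range, Finset.mem_Ico]
          omega
        rw [e, Finset.sum_Ico_eq_sum_range]
        have e2 : ∀ i ∈ Finset.range (J * n0 - c), g (c + i - c) = g i := by
          intro i _
          rw [Nat.add_sub_cancel_left]
        rw [Finset.sum_congr rfl e2]
        exact Finset.sum_le_sum_of_subset (Finset.range_mono (Nat.sub_le _ _))
    _ = _ := by
        rw [Finset.sum_const, Finset.card_range, nsmul_eq_mul]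

/-! ## The terms of a pair -/

lemma mng_term {V θ S n : ℝ} {N : ℝ≥0∞} (hV : 0 < V) (hθ0 : 0 < θ) (hθ1 : θ < 1) (hn : 1 ≤ n) :
    ENNReal.ofReal (V ^ θ * ((1 - θ) * (Real.exp (θ * S) * (n ^ (θ - 1) * max S 0 + 7)))) +
      ENNReal.ofReal (V ^ (θ - 1) *
        (Real.exp ((θ - 1) * S) * (θ * (n ^ (θ - 1) * max S 0) + 8))) * N =
    (ENNReal.ofReal (V ^ θ * (1 - θ)) * (ENNReal.ofReal (n ^ (θ - 1)) *
        (ENNReal.ofReal S * ENNReal.ofReal (Real.exp (θ * S)))) +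
      ENNReal.ofReal (V ^ θ * (1 - θ) * 7) * ENNReal.ofReal (Real.exp (θ * S))) +
    (ENNReal.ofReal (V ^ (θ - 1) * θ) * (ENNReal.ofReal (n ^ (θ - 1)) *
        (ENNReal.ofReal S * (ENNReal.ofReal (Real.exp ((θ - 1) * S)) * N))) +
      ENNReal.ofReal (V ^ (θ - 1) * 8) * (ENNReal.ofReal (Real.exp ((θ - 1) * S)) * N)) := by
  have h1 : 0 < V ^ θ := Real.rpow_pos_of_pos hV _
  have h2 : 0 < V ^ (θ - 1) := Real.rpow_pos_of_pos hV _
  have h3 : 0 < n ^ (θ - 1) := Real.rpow_pos_of_pos (by linarith) _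
  have h4 : 0 ≤ max S 0 := le_max_right _ _
  have h5 : 0 < 1 - θ := by linarith
  have e0 : ENNReal.ofReal S = ENNReal.ofReal (max S 0) := by
    rcases le_total S 0 with h | h
    · rw [max_eq_right h, ENNReal.ofReal_of_nonpos h, ENNReal.ofReal_zero]
    · rw [max_eq_left h]
  have e1 : V ^ θ * ((1 - θ) * (Real.exp (θ * S) * (n ^ (θ - 1) * max S 0 + 7))) =
      V ^ θ * (1 - θ) * (n ^ (θ - 1) * (max S 0 * Real.exp (θ * S))) +
        V ^ θ * (1 - θ) * 7 * Real.exp (θ * S) := by ring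
  have e2 : V ^ (θ - 1) * (Real.exp ((θ - 1) * S) * (θ * (n ^ (θ - 1) * max S 0) + 8)) =
      V ^ (θ - 1) * θ * (n ^ (θ - 1) * (max S 0 * Real.exp ((θ - 1) * S))) +
        V ^ (θ - 1) * 8 * Real.exp ((θ - 1) * S) := by ring
  rw [e0, e1, e2, ENNReal.ofReal_add (by positivity) (by positivity),
    ENNReal.ofReal_add (by positivity) (by positivity),
    ENNReal.ofReal_mul (p := V ^ θ * (1 - θ)) (by positivity),
    ENNReal.ofReal_mul (p := n ^ (θ - 1)) (by positivity),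
    ENNReal.ofReal_mul (p := max S 0) (by positivity),
    ENNReal.ofReal_mul (p := V ^ θ * (1 - θ) * 7) (by positivity),
    ENNReal.ofReal_mul (p := V ^ (θ - 1) * θ) (by positivity),
    ENNReal.ofReal_mul (p := n ^ (θ - 1)) (by positivity),
    ENNReal.ofReal_mul (p := max S 0) (by positivity),
    ENNReal.ofReal_mul (p := V ^ (θ - 1) * 8) (by positivity)]
  ring

lemma mng_int {P : Measure (ℕ → ℝ)} {V θ E a b : ℝ} {S n : (ℕ → ℝ) → ℝ} {N : (ℕ → ℝ) → ℝ≥0∞}
    (hV : 0 < V) (hθ0 : 0 < θ) (hθ1 : θ < 1) (hE : 0 ≤ E) (ha : 0 ≤ a) (hb : 0 ≤ b)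
    (hn : ∀ x, 1 ≤ n x) (hS : Measurable S) (hnm : Measurable n) (hN : Measurable N)
    (h1 : ∫⁻ x, ENNReal.ofReal (n x ^ (θ - 1)) *
      (ENNReal.ofReal (S x) * ENNReal.ofReal (Real.exp (θ * S x))) ∂P ≤ ENNReal.ofReal (E * a))
    (h2 : ∫⁻ x, ENNReal.ofReal (Real.exp (θ * S x)) ∂P ≤ ENNReal.ofReal E)
    (h3 : ∫⁻ x, ENNReal.ofReal (n x ^ (θ - 1)) * (ENNReal.ofReal (S x) *
      (ENNReal.ofReal (Real.exp ((θ - 1) * S x)) * N x)) ∂P ≤ ENNReal.ofReal (V * E * b))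
    (h4 : ∫⁻ x, ENNReal.ofReal (Real.exp ((θ - 1) * S x)) * N x ∂P ≤ ENNReal.ofReal (V * E)) :
    ∫⁻ x, (ENNReal.ofReal (V ^ θ *
        ((1 - θ) * (Real.exp (θ * S x) * (n x ^ (θ - 1) * max (S x) 0 + 7)))) +
      ENNReal.ofReal (V ^ (θ - 1) *
        (Real.exp ((θ - 1) * S x) * (θ * (n x ^ (θ - 1) * max (S x) 0) + 8))) * N x) ∂P ≤
    ENNReal.ofReal (V ^ θ * E * ((1 - θ) * a + θ * b + 15)) := by
  have h5 : 0 < 1 - θ := by linarith
  have hV1 : 0 < V ^ θ := Real.rpow_pos_of_pos hV _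
  have hV2 : 0 < V ^ (θ - 1) := Real.rpow_pos_of_pos hV _
  have m2 : Measurable fun x => ENNReal.ofReal (Real.exp (θ * S x)) :=
    ENNReal.measurable_ofReal.comp (Real.measurable_exp.comp (hS.const_mul _))
  have mS : Measurable fun x => ENNReal.ofReal (S x) := ENNReal.measurable_ofReal.comp hS
  have mn : Measurable fun x => ENNReal.ofReal (n x ^ (θ - 1)) :=
    ENNReal.measurable_ofReal.comp (hnm.pow_const _)
  have m4 : Measurable fun x => ENNReal.ofReal (Real.exp ((θ - 1) * S x)) * N x :=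
    (ENNReal.measurable_ofReal.comp (Real.measurable_exp.comp (hS.const_mul _))).mul hN
  have m1 : Measurable fun x => ENNReal.ofReal (n x ^ (θ - 1)) *
      (ENNReal.ofReal (S x) * ENNReal.ofReal (Real.exp (θ * S x))) := mn.mul (mS.mul m2)
  have m3 : Measurable fun x => ENNReal.ofReal (n x ^ (θ - 1)) * (ENNReal.ofReal (S x) *
      (ENNReal.ofReal (Real.exp ((θ - 1) * S x)) * N x)) := mn.mul (mS.mul m4)
  rw [lintegral_congr fun x => mng_term hV hθ0 hθ1 (hn x)]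
  have n1 := m1.const_mul (ENNReal.ofReal (V ^ θ * (1 - θ)))
  have n2 := m2.const_mul (ENNReal.ofReal (V ^ θ * (1 - θ) * 7))
  have n3 := m3.const_mul (ENNReal.ofReal (V ^ (θ - 1) * θ))
  rw [lintegral_add_left (f := fun x => ENNReal.ofReal (V ^ θ * (1 - θ)) *
      (ENNReal.ofReal (n x ^ (θ - 1)) *
        (ENNReal.ofReal (S x) * ENNReal.ofReal (Real.exp (θ * S x)))) +
      ENNReal.ofReal (V ^ θ * (1 - θ) * 7) * ENNReal.ofReal (Real.exp (θ * S x))) (n1.add n2),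
    lintegral_add_left n1, lintegral_add_left n3,
    lintegral_const_mul _ m1, lintegral_const_mul _ m2, lintegral_const_mul _ m3,
    lintegral_const_mul _ m4]
  calc _ ≤ (ENNReal.ofReal (V ^ θ * (1 - θ)) * ENNReal.ofReal (E * a) +
        ENNReal.ofReal (V ^ θ * (1 - θ) * 7) * ENNReal.ofReal E) +
        (ENNReal.ofReal (V ^ (θ - 1) * θ) * ENNReal.ofReal (V * E * b) +
        ENNReal.ofReal (V ^ (θ - 1) * 8) * ENNReal.ofReal (V * E)) := by gcongr
    _ = ENNReal.ofReal (V ^ θ * (1 - θ) * (E * a) + V ^ θ * (1 - θ) * 7 * E +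
        (V ^ (θ - 1) * θ * (V * E * b) + V ^ (θ - 1) * 8 * (V * E))) := by
        rw [ENNReal.ofReal_add (by positivity) (by positivity),
          ENNReal.ofReal_add (by positivity) (by positivity),
          ENNReal.ofReal_add (by positivity) (by positivity),
          ENNReal.ofReal_mul (p := V ^ θ * (1 - θ)) (q := E * a) (by positivity),
          ENNReal.ofReal_mul (p := V ^ θ * (1 - θ) * 7) (q := E) (by positivity),
          ENNReal.ofReal_mul (p := V ^ (θ - 1) * θ) (q := V * E * b) (by positivity),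
          ENNReal.ofReal_mul (p := V ^ (θ - 1) * 8) (q := V * E) (by positivity)]
    _ ≤ _ := by
        apply ENNReal.ofReal_le_ofReal
        have e : V ^ θ = V ^ (θ - 1) * V := by
          rw [Real.rpow_sub_one hV.ne', div_mul_cancel₀ _ hV.ne']
        have e1 : V ^ (θ - 1) * θ * (V * E * b) + V ^ (θ - 1) * 8 * (V * E) =
            V ^ θ * (θ * (E * b) + 8 * E) := by rw [e]; ring
        rw [e1]
        have h6 : 0 ≤ V ^ θ * E * θ := by positivity
        nlinarith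

lemma mng_NL1 (R c : ℕ) (y : ℕ → ℝ) : 1 ≤ NL R y c := by
  unfold NL VR VL
  have h1 : 0 ≤ ∑ i ∈ Finset.range R, Real.exp (-H (shift c y) 0 (i + 1)) :=
    Finset.sum_nonneg fun i _ => (Real.exp_pos _).le
  have h2 : 0 ≤ ∑ i ∈ Finset.range R, Real.exp (H (fun j => y (c - 1 - j)) 0 (i + 1)) :=
    Finset.sum_nonneg fun i _ => (Real.exp_pos _).le
  linarith

lemma mng_NR1 (R c : ℕ) (y : ℕ → ℝ) : 1 ≤ NR R y c := by
  unfold NR VR VL
  have h1 : 0 ≤ ∑ i ∈ Finset.range R, Real.exp (-H (fun j => y (c - j)) 0 (i + 1)) :=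
    Finset.sum_nonneg fun i _ => (Real.exp_pos _).le
  have h2 : 0 ≤ ∑ i ∈ Finset.range R, Real.exp (H (shift (c + 1) y) 0 (i + 1)) :=
    Finset.sum_nonneg fun i _ => (Real.exp_pos _).le
  linarith

open Classical in
/-- the two-sided sums at the ends of a pair -/
noncomputable def nn (R n0 : ℕ) (y : ℕ → ℝ) (a b : ℕ) : ℝ :=
  if In R n0 a b then NL R y a * NR R y b else 1

lemma mng_nn1 (R n0 : ℕ) (y : ℕ → ℝ) (a b : ℕ) : 1 ≤ nn R n0 y a b := by
  unfold nn
  split_ifs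
  · have h1 := mng_NL1 R a y
    have h2 := mng_NR1 R b y
    nlinarith
  · exact le_rfl

lemma mng_mnn (R n0 : ℕ) (a b : ℕ) : Measurable (fun y : ℕ → ℝ => nn R n0 y a b) := by
  unfold nn
  split_ifs
  · exact (mng_mNL R a).mul (mng_mNR R b)
  · exact measurable_const

/-- the integrand of a pair -/
noncomputable def Tm (K : PMF ℕ) (k R n0 : ℕ) (ϑ V θ : ℝ) (a b : ℕ) (x : ℕ → ℝ) : ℝ≥0∞ :=
  ENNReal.ofReal (V ^ θ * ((1 - θ) * (Real.exp (θ * Sy k ϑ x (a * k) ((b + 1) * k)) *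
    (nn R n0 (yk k ϑ x) a b ^ (θ - 1) * max (Sy k ϑ x (a * k) ((b + 1) * k)) 0 + 7)))) +
  ENNReal.ofReal (V ^ (θ - 1) * (Real.exp ((θ - 1) * Sy k ϑ x (a * k) ((b + 1) * k)) *
    (θ * (nn R n0 (yk k ϑ x) a b ^ (θ - 1) * max (Sy k ϑ x (a * k) ((b + 1) * k)) 0) + 8))) *
      BX (w0 K k k) k (b - a) (shift (a * k) x)

lemma mng_V {K : PMF ℕ} {ν : Measure ℝ} {α c δ r ϑ ε τ ω s : ℝ} {k q : ℕ}
    (h : BC K ν α c δ r ϑ ε τ ω s k q) : 1 ≤ k ∧ 0 < VH K k ϑ ∧ te α s ≤ 5 / 8 := by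
  have hϑ := h.ϑ0
  have hδ := h.rx.rg.δ0
  have hk0 : (0 : ℝ) < k := by
    have := h.kϑ
    by_contra hk
    have : (k : ℝ) ≤ 0 := not_lt.1 hk
    nlinarith
  have hk1 : 1 ≤ k := by exact_mod_cast hk0
  have hc := h.rx.rg.c0
  have hT : 0 < TS K k := by
    have h1 := h.rx.v1
    have h2 : 0 < c * (k : ℝ) ^ (1 - α) := mul_pos hc (Real.rpow_pos_of_pos hk0 _)
    have h3 := h.rx.r0
    by_contra hT
    have : TS K k ≤ 0 := not_lt.1 hT
    have h4 : δ * TS K k ≤ 0 := mul_nonpos_of_nonneg_of_nonpos hδ.le this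
    nlinarith
  refine ⟨hk1, ?_, ?_⟩
  · unfold VH
    positivity
  · have h1 := h.t2
    have h2 := h.s0
    have h3 := h.rx.rg.α0
    have h4 := h.rx.rg.δ1
    refine le_trans ?_ h1
    unfold te
    have h5 : 0 < 1 + α := by
      have : (1 : ℝ) / 2 ^ 20 < 1 := by norm_num
      linarith
    exact div_le_div_of_nonneg_right (by linarith) h5.le

lemma mng_mBX (hPFM : Pool.Agent.H99.CE.T_PFM) (K : PMF ℕ) (k d : ℕ) :
    Measurable (BX (w0 K k k) k d) :=
  ((hPFM.1 _ ((hPFM.2 K).2 k k)).2.1 k d).1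

lemma mng_mTm (hPFM : Pool.Agent.H99.CE.T_PFM) (K : PMF ℕ) (k R n0 : ℕ) (ϑ V θ : ℝ) (a b : ℕ) :
    Measurable (Tm K k R n0 ϑ V θ a b) := by
  have hS := mng_mSy k ϑ (a * k) ((b + 1) * k)
  have hn : Measurable fun x : ℕ → ℝ => nn R n0 (yk k ϑ x) a b :=
    (mng_mnn R n0 a b).comp (mng_myk k ϑ)
  have hN : Measurable fun x : ℕ → ℝ => BX (w0 K k k) k (b - a) (shift (a * k) x) :=
    (mng_mBX hPFM K k (b - a)).comp (measurable_shift _)
  have h1 := (hn.pow_const (θ - 1)).mul (hS.max (measurable_const (a := (0 : ℝ))))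
  unfold Tm
  refine Measurable.add ?_ (Measurable.mul ?_ hN)
  · exact ENNReal.measurable_ofReal.comp ((((Real.measurable_exp.comp (hS.const_mul θ)).mul
      (h1.add_const 7)).const_mul (1 - θ)).const_mul (V ^ θ))
  · exact ENNReal.measurable_ofReal.comp (((Real.measurable_exp.comp (hS.const_mul (θ - 1))).mul
      ((h1.const_mul θ).add_const 8)).const_mul (V ^ (θ - 1)))

lemma mng_pair (hPFM : Pool.Agent.H99.CE.T_PFM) (hPR0 : T_PR0) {K : PMF ℕ}
    {ν : Measure ℝ} {α c δ r ϑ ε τ ω s : ℝ} {k q : ℕ} (h : BC K ν α c δ r ϑ ε τ ω s k q)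
    {R n0 a d : ℕ} {A B : ℝ} (hA0 : 0 ≤ A) (hB0 : 0 ≤ B)
    (h1 : ∫⁻ x, ENNReal.ofReal (nn R n0 (yk k ϑ x) a (a + d) ^ (te α s - 1)) *
      (ENNReal.ofReal (Sy k ϑ x (a * k) ((a + d + 1) * k)) *
        ENNReal.ofReal (Real.exp (te α s * Sy k ϑ x (a * k) ((a + d + 1) * k)))) ∂(iid ν) ≤
      ENNReal.ofReal (Real.exp (-(kap ϑ ε (te α s) τ δ * ((d : ℝ) + 1))) * A))
    (h3 : ∫⁻ x, ENNReal.ofReal (nn R n0 (yk k ϑ x) a (a + d) ^ (te α s - 1)) *
      (ENNReal.ofReal (Sy k ϑ x (a * k) ((a + d + 1) * k)) *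
        (ENNReal.ofReal (Real.exp ((te α s - 1) * Sy k ϑ x (a * k) ((a + d + 1) * k))) *
          BX (w0 K k k) k d (shift (a * k) x))) ∂(iid ν) ≤
      ENNReal.ofReal (VH K k ϑ * Real.exp (-(kap ϑ ε (te α s) τ δ * ((d : ℝ) + 1))) * B)) :
    ∫⁻ x, Tm K k R n0 ϑ (VH K k ϑ) (te α s) a (a + d) x ∂(iid ν) ≤
      ENNReal.ofReal (VH K k ϑ ^ te α s * Real.exp (-(kap ϑ ε (te α s) τ δ * ((d : ℝ) + 1))) *
        ((1 - te α s) * A + te α s * B + 15)) := by
  have := h.eg.prob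
  obtain ⟨hk, hV, hθ⟩ := mng_V h
  have hθ1 := h.t1
  obtain ⟨p1, -, p3, -⟩ := hPR0 K ν α c δ r ϑ ε τ ω s k q h d
  have e0 : a + d - a = d := Nat.add_sub_cancel_left a d
  have eS : ∀ x : ℕ → ℝ, Sy k ϑ x (a * k) ((a + d + 1) * k) =
      Sy k ϑ (shift (a * k) x) 0 ((d + 1) * k) := by
    intro x
    rw [mng_Sys, zero_add]
    congr 1
    ring
  have mS0 := mng_mSy k ϑ 0 ((d + 1) * k)
  have mB := mng_mBX hPFM K k d
  unfold Tm
  rw [e0]
  refine mng_int (P := iid ν) (S := fun x => Sy k ϑ x (a * k) ((a + d + 1) * k))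
    (n := fun x => nn R n0 (yk k ϑ x) a (a + d))
    (N := fun x => BX (w0 K k k) k d (shift (a * k) x)) hV (by linarith) (by linarith)
    (Real.exp_pos _).le hA0 hB0 (fun x => mng_nn1 _ _ _ _ _) (mng_mSy _ _ _ _)
    ((mng_mnn R n0 a (a + d)).comp (mng_myk k ϑ)) (mB.comp (measurable_shift _)) h1 ?_ h3 ?_
  · simp only [eS]
    rw [mng_meas ν (a * k) (f := fun x =>
      ENNReal.ofReal (Real.exp (te α s * Sy k ϑ x 0 ((d + 1) * k))))
      (ENNReal.measurable_ofReal.comp (Real.measurable_exp.comp (mS0.const_mul _)))]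
    exact p3
  · simp only [eS]
    rw [mng_meas ν (a * k) (f := fun x =>
      ENNReal.ofReal (Real.exp ((te α s - 1) * Sy k ϑ x 0 ((d + 1) * k))) *
        BX (w0 K k k) k d x)
      ((ENNReal.measurable_ofReal.comp (Real.measurable_exp.comp (mS0.const_mul _))).mul mB)]
    exact p1

lemma mng_nonneg {K : PMF ℕ} {ν : Measure ℝ} {α c δ r ϑ ε τ ω s : ℝ} {k q : ℕ}
    (h : BC K ν α c δ r ϑ ε τ ω s k q) (R d : ℕ) : 0 ≤ ad ϑ ω ∧
    0 ≤ Q2 (rl ν k ϑ) ϑ (te α s) τ R ∧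
    0 ≤ Q2 (rl ν k ϑ) ϑ (te α s) τ R * (ad ϑ ω * ((d : ℝ) + 1) + 4) := by
  have hϑ := h.ϑ0
  have hω := h.ω0
  have h1 : 0 ≤ ad ϑ ω := by unfold ad; positivity
  have h2 : 0 ≤ Q2 (rl ν k ϑ) ϑ (te α s) τ R := by unfold Q2; positivity
  exact ⟨h1, h2, by positivity⟩

/-- a pair which is not close to a boundary -/
lemma mng_in (hPFM : Pool.Agent.H99.CE.T_PFM) (hPR0 : T_PR0) (hPR1 : T_PR1) {K : PMF ℕ}
    {ν : Measure ℝ} {α c δ r ϑ ε τ ω s : ℝ} {k q : ℕ} (h : BC K ν α c δ r ϑ ε τ ω s k q)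
    {R n0 a d : ℕ} (hR : 2 ≤ R) (hIn : In R n0 a (a + d)) :
    ∫⁻ x, Tm K k R n0 ϑ (VH K k ϑ) (te α s) a (a + d) x ∂(iid ν) ≤
      ENNReal.ofReal (VH K k ϑ ^ te α s * Real.exp (-(kap ϑ ε (te α s) τ δ * ((d : ℝ) + 1))) *
        (Q2 (rl ν k ϑ) ϑ (te α s) τ R * (ad ϑ ω * ((d : ℝ) + 1) + 4) +
          Real.exp (2 * R + 9))) := by
  have := h.eg.prob
  obtain ⟨hk, hV, hθ⟩ := mng_V h
  obtain ⟨hI1, -, -, -, hI5⟩ := id hIn
  have hd : 2 * R ≤ d := by omega
  obtain ⟨m, rfl⟩ : ∃ m, a = R + m := ⟨a - R, by omega⟩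
  obtain ⟨q1, q2⟩ := hPR1 K ν α c δ r ϑ ε τ ω s k q h R d hR hd
  obtain ⟨-, -, hQ⟩ := mng_nonneg h R d
  set Q := Q2 (rl ν k ϑ) ϑ (te α s) τ R * (ad ϑ ω * ((d : ℝ) + 1) + 4) with hQdef
  have en : ∀ x : ℕ → ℝ, nn R n0 (yk k ϑ x) (R + m) (R + m + d) =
      NL R (yk k ϑ (shift (m * k) x)) R * NR R (yk k ϑ (shift (m * k) x)) (R + d) := by
    intro x
    unfold nn
    rw [if_pos hIn, mng_yks, mng_NLs, mng_NRs R m (R + d) (by omega)]
    congr 2
    omega
  have eS : ∀ x : ℕ → ℝ, Sy k ϑ x ((R + m) * k) ((R + m + d + 1) * k) =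
      Sy k ϑ (shift (m * k) x) (R * k) ((R + d + 1) * k) := by
    intro x
    rw [mng_Sys]
    congr 1 <;> ring
  have eB : ∀ x : ℕ → ℝ, shift ((R + m) * k) x = shift (R * k) (shift (m * k) x) := by
    intro x
    rw [shift_shift]
    congr 1
    ring
  have mS := mng_mSy k ϑ (R * k) ((R + d + 1) * k)
  have mB : Measurable fun x : ℕ → ℝ => BX (w0 K k k) k d (shift (R * k) x) :=
    (mng_mBX hPFM K k d).comp (measurable_shift _)
  have mn : Measurable fun x : ℕ → ℝ => ENNReal.ofReal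
      ((NL R (yk k ϑ x) R * NR R (yk k ϑ x) (R + d)) ^ (te α s - 1)) :=
    ENNReal.measurable_ofReal.comp ((((mng_mNL R R).comp (mng_myk k ϑ)).mul
      ((mng_mNR R (R + d)).comp (mng_myk k ϑ))).pow_const _)
  have mS' : Measurable fun x : ℕ → ℝ => ENNReal.ofReal (Sy k ϑ x (R * k) ((R + d + 1) * k)) :=
    ENNReal.measurable_ofReal.comp mS
  have me : ∀ u : ℝ, Measurable fun x : ℕ → ℝ =>
      ENNReal.ofReal (Real.exp (u * Sy k ϑ x (R * k) ((R + d + 1) * k))) := fun u =>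
    ENNReal.measurable_ofReal.comp (Real.measurable_exp.comp (mS.const_mul u))
  have hX : 0 < Real.exp (2 * R + 8) := Real.exp_pos _
  refine (mng_pair hPFM hPR0 h (A := Q + Real.exp (2 * R + 8)) (B := Q + Real.exp (2 * R + 8))
    (by positivity) (by positivity) ?_ ?_).trans ?_
  · simp only [en, eS]
    rw [mng_meas ν (m * k) (f := fun x => ENNReal.ofReal
      ((NL R (yk k ϑ x) R * NR R (yk k ϑ x) (R + d)) ^ (te α s - 1)) *
      (ENNReal.ofReal (Sy k ϑ x (R * k) ((R + d + 1) * k)) *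
      ENNReal.ofReal (Real.exp (te α s * Sy k ϑ x (R * k) ((R + d + 1) * k)))))
      (mn.mul (mS'.mul (me _)))]
    exact q2
  · simp only [en, eS, eB]
    rw [mng_meas ν (m * k) (f := fun x => ENNReal.ofReal
      ((NL R (yk k ϑ x) R * NR R (yk k ϑ x) (R + d)) ^ (te α s - 1)) *
      (ENNReal.ofReal (Sy k ϑ x (R * k) ((R + d + 1) * k)) *
      (ENNReal.ofReal (Real.exp ((te α s - 1) * Sy k ϑ x (R * k) ((R + d + 1) * k))) *
        BX (w0 K k k) k d (shift (R * k) x))))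
      (mn.mul (mS'.mul ((me _).mul mB)))]
    exact q1
  · apply ENNReal.ofReal_le_ofReal
    have hVp : 0 < VH K k ϑ ^ te α s := Real.rpow_pos_of_pos hV _
    refine mul_le_mul_of_nonneg_left ?_ (by positivity)
    have e9 : Real.exp (2 * R + 9) = Real.exp (2 * R + 8) * Real.exp 1 := by
      rw [← Real.exp_add]
      congr 1
      ring
    have h1 := Real.add_one_le_exp (1 : ℝ)
    have h8 : (15 : ℝ) ≤ Real.exp (2 * R + 8) := by
      have hR' : (2 : ℝ) ≤ R := by exact_mod_cast hR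
      have h2 := Real.quadratic_le_exp_of_nonneg (x := 2 * R + 8) (by positivity)
      nlinarith
    rw [e9]
    nlinarith

/-- a pair close to a boundary -/
lemma mng_out (hPFM : Pool.Agent.H99.CE.T_PFM) (hPR0 : T_PR0) {K : PMF ℕ}
    {ν : Measure ℝ} {α c δ r ϑ ε τ ω s : ℝ} {k q : ℕ} (h : BC K ν α c δ r ϑ ε τ ω s k q)
    {R n0 a d : ℕ} (hIn : ¬ In R n0 a (a + d)) :
    ∫⁻ x, Tm K k R n0 ϑ (VH K k ϑ) (te α s) a (a + d) x ∂(iid ν) ≤
      ENNReal.ofReal (VH K k ϑ ^ te α s * Real.exp (-(kap ϑ ε (te α s) τ δ * ((d : ℝ) + 1))) *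
        (ad ϑ ω * ((d : ℝ) + 1) + 40)) := by
  have := h.eg.prob
  obtain ⟨hk, hV, hθ⟩ := mng_V h
  obtain ⟨-, p2, -, p4⟩ := hPR0 K ν α c δ r ϑ ε τ ω s k q h d
  obtain ⟨had, -, -⟩ := mng_nonneg h R d
  have en : ∀ x : ℕ → ℝ, nn R n0 (yk k ϑ x) a (a + d) = 1 := by
    intro x
    unfold nn
    rw [if_neg hIn]
  have eS : ∀ x : ℕ → ℝ, Sy k ϑ x (a * k) ((a + d + 1) * k) =
      Sy k ϑ (shift (a * k) x) 0 ((d + 1) * k) := by
    intro x
    rw [mng_Sys, zero_add]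
    congr 1
    ring
  have mS := mng_mSy k ϑ 0 ((d + 1) * k)
  have mB := mng_mBX hPFM K k d
  have mS' : Measurable fun x : ℕ → ℝ => ENNReal.ofReal (Sy k ϑ x 0 ((d + 1) * k)) :=
    ENNReal.measurable_ofReal.comp mS
  have me : ∀ u : ℝ, Measurable fun x : ℕ → ℝ =>
      ENNReal.ofReal (Real.exp (u * Sy k ϑ x 0 ((d + 1) * k))) := fun u =>
    ENNReal.measurable_ofReal.comp (Real.measurable_exp.comp (mS.const_mul u))
  refine (mng_pair hPFM hPR0 h (A := ad ϑ ω * ((d : ℝ) + 1) + 4)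
    (B := ad ϑ ω * ((d : ℝ) + 1) + 32) (by positivity) (by positivity) ?_ ?_).trans ?_
  · simp only [en, eS, Real.one_rpow, ENNReal.ofReal_one, one_mul]
    rw [mng_meas ν (a * k) (f := fun x => ENNReal.ofReal (Sy k ϑ x 0 ((d + 1) * k)) *
      ENNReal.ofReal (Real.exp (te α s * Sy k ϑ x 0 ((d + 1) * k)))) (mS'.mul (me _))]
    exact p4
  · simp only [en, eS, Real.one_rpow, ENNReal.ofReal_one, one_mul]
    rw [mng_meas ν (a * k) (f := fun x => ENNReal.ofReal (Sy k ϑ x 0 ((d + 1) * k)) *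
      (ENNReal.ofReal (Real.exp ((te α s - 1) * Sy k ϑ x 0 ((d + 1) * k))) *
        BX (w0 K k k) k d x)) (mS'.mul ((me _).mul mB))]
    exact p2
  · apply ENNReal.ofReal_le_ofReal
    have hVp : 0 < VH K k ϑ ^ te α s := Real.rpow_pos_of_pos hV _
    refine mul_le_mul_of_nonneg_left ?_ (by positivity)
    nlinarith

/-! ## Sums over pairs -/

lemma mng_sum {X κ a A B : ℝ} (hX : 0 ≤ X) (hκ : 0 < κ) (ha : 0 ≤ a) (hA : 0 ≤ A) (hB : 0 ≤ B)
    (N : ℕ) : ∑ d ∈ Finset.range N, ENNReal.ofReal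
      (X * Real.exp (-(κ * ((d : ℝ) + 1))) * (A * (a * ((d : ℝ) + 1) + 4) + B)) ≤
    ENNReal.ofReal (X * (A * (a / κ ^ 2 + 4 / κ) + B / κ)) := by
  rw [← ENNReal.ofReal_sum_of_nonneg (fun d _ => by positivity)]
  apply ENNReal.ofReal_le_ofReal
  have e : ∀ d ∈ Finset.range N, X * Real.exp (-(κ * ((d : ℝ) + 1))) *
      (A * (a * ((d : ℝ) + 1) + 4) + B) = X * A * a * (((d : ℝ) + 1) *
        Real.exp (-(κ * ((d : ℝ) + 1)))) + X * (A * 4 + B) * Real.exp (-(κ * ((d : ℝ) + 1))) := by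
    intro d _
    ring
  rw [Finset.sum_congr rfl e, Finset.sum_add_distrib, ← Finset.mul_sum, ← Finset.mul_sum]
  have h1 := mul_le_mul_of_nonneg_left (mng_s2 hκ N) (show 0 ≤ X * A * a by positivity)
  have h2 := mul_le_mul_of_nonneg_left (mng_s1 hκ N) (show 0 ≤ X * (A * 4 + B) by positivity)
  have e2 : X * (A * (a / κ ^ 2 + 4 / κ) + B / κ) =
      X * A * a * (1 / κ ^ 2) + X * (A * 4 + B) * (1 / κ) := by ring
  linarith

lemma mng_near {X κ a : ℝ} (hX : 0 ≤ X) (hκ : 0 < κ) (ha : 0 ≤ a) (R : ℕ) :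
    ∑ d ∈ Finset.range (2 * R), ENNReal.ofReal
      (X * Real.exp (-(κ * ((d : ℝ) + 1))) * (a * ((d : ℝ) + 1) + 40)) ≤
    ENNReal.ofReal (X * (2 * R * (2 * R * a + 40))) := by
  rw [← ENNReal.ofReal_sum_of_nonneg (fun d _ => by positivity)]
  apply ENNReal.ofReal_le_ofReal
  calc _ ≤ ∑ d ∈ Finset.range (2 * R), X * (2 * R * a + 40) := by
        refine Finset.sum_le_sum fun d hd => ?_
        rw [Finset.mem_range] at hd
        have hd' : (d : ℝ) + 1 ≤ 2 * R := by exact_mod_cast hd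
        have h1 : Real.exp (-(κ * ((d : ℝ) + 1))) ≤ 1 := by
          rw [← Real.exp_zero]
          exact Real.exp_le_exp.2 (by rw [neg_nonpos]; positivity)
        refine mul_le_mul (mul_le_of_le_one_right hX h1) ?_ (by positivity) hX
        have := mul_le_mul_of_nonneg_left hd' ha
        linarith
    _ = _ := by
        rw [Finset.sum_const, Finset.card_range, nsmul_eq_mul]
        push_cast
        ring

open Classical in
theorem pf_MNG (hPFM : Pool.Agent.H99.CE.T_PFM) (_hCCT : Pool.Agent.H99.CE.T_CCT)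
    (hTNG : T_TNG) (hFHL : T_FHL) (hBND : T_BND) (hPR0 : T_PR0) (hPR1 : T_PR1) : T_MNG := by
  intro K ν α c δ r ϑ ε τ ω s k q h R n0 J t hR hn0 hVt
  have := h.eg.prob
  obtain ⟨hk, hV, hθ⟩ := mng_V h
  obtain ⟨had, hQ, -⟩ := mng_nonneg h R 0
  have hθ1 := h.t1
  have hκ := h.κ1
  have hVp : 0 < VH K k ϑ ^ te α s := Real.rpow_pos_of_pos hV _
  set P : ℕ → Finset (ℕ × ℕ) := fun j =>
    (Finset.range n0 ×ˢ TT n0 j).filter (fun p => p.1 ≤ p.2) with hP
  set g : ℕ → ℝ≥0∞ := fun d => ENNReal.ofReal (VH K k ϑ ^ te α s *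
    Real.exp (-(kap ϑ ε (te α s) τ δ * ((d : ℝ) + 1))) *
    (Q2 (rl ν k ϑ) ϑ (te α s) τ R * (ad ϑ ω * ((d : ℝ) + 1) + 4) + Real.exp (2 * R + 9))) with hg
  set f : ℕ → ℝ≥0∞ := fun d => ENNReal.ofReal (VH K k ϑ ^ te α s *
    Real.exp (-(kap ϑ ε (te α s) τ δ * ((d : ℝ) + 1))) * (ad ϑ ω * ((d : ℝ) + 1) + 40)) with hf
  have hpt : ∀ (j : ℕ) (x : ℕ → ℝ), Gf t (te α s) (∑ c ∈ Finset.range n0, ∑ c' ∈ TT n0 j,
      if c ≤ c' then BX (w0 K k k) k (c' - c) (shift (c * k) x) else 0) ≤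
      ∑ p ∈ P j, Tm K k R n0 ϑ (VH K k ϑ) (te α s) p.1 p.2 x := by
    intro j x
    have e1 : (∑ c ∈ Finset.range n0, ∑ c' ∈ TT n0 j,
        if c ≤ c' then BX (w0 K k k) k (c' - c) (shift (c * k) x) else 0) =
        ∑ p ∈ P j, BX (w0 K k k) k (p.2 - p.1) (shift (p.1 * k) x) := by
      rw [hP, Finset.sum_filter, Finset.sum_product]
    rw [e1]
    refine hTNG (VH K k ϑ) t (te α s) hV hVt hθ1 (by linarith) (P j)
      (fun p => Sy k ϑ x (p.1 * k) ((p.2 + 1) * k)) (fun p => nn R n0 (yk k ϑ x) p.1 p.2)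
      (fun p => BX (w0 K k k) k (p.2 - p.1) (shift (p.1 * k) x))
      (fun p _ => mng_nn1 _ _ _ _ _) fun p hp => ?_
    have hp' := hp
    rw [hP, Finset.mem_filter, Finset.mem_product, Finset.mem_range, TT, Finset.mem_Ico] at hp
    obtain ⟨⟨hp1, hp2, hp3⟩, hp4⟩ := hp
    by_cases hIn : In R n0 p.1 p.2
    · have hIn' := hIn
      obtain ⟨i1, i2, i3, i4, i5⟩ := hIn'
      have emod : p.2 % n0 = p.2 - j * n0 := by
        obtain ⟨u, hu⟩ : ∃ u, p.2 = j * n0 + u := ⟨p.2 - j * n0, by omega⟩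
        have hu2 : u < n0 := by
          have : (j + 1) * n0 = j * n0 + n0 := by ring
          omega
        rw [hu, Nat.add_sub_cancel_left, mul_comm, Nat.mul_add_mod, Nat.mod_eq_of_lt hu2]
      have e2 : (j + 1) * n0 = j * n0 + n0 := by ring
      have h1 := (hFHL R (yk k ϑ x) p.1 p.2 i1 i5 (P j) (fun a b h1 h2 h3 h4 => by
        rw [hP, Finset.mem_filter, Finset.mem_product, Finset.mem_range, TT, Finset.mem_Ico]
        simp only
        omega)).1
      have eH : ∀ u ∈ P j, H (yk k ϑ x) u.1 (u.2 + 1) = Sy k ϑ x (u.1 * k) ((u.2 + 1) * k) := by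
        intro u hu
        rw [hP, Finset.mem_filter] at hu
        have hu' := hu.2
        have e3 : u.2 + 1 = u.1 + (u.2 + 1 - u.1) := by omega
        rw [e3]
        exact mng_HS hk ϑ x _ _
      rw [eH p hp'] at h1
      unfold nn
      rw [if_pos hIn]
      refine h1.trans (le_of_eq (Finset.sum_congr rfl fun u hu => ?_))
      rw [eH u hu]
    · unfold nn
      rw [if_neg hIn, mul_one]
      exact Finset.single_le_sum (f := fun p : ℕ × ℕ =>
        Real.exp (Sy k ϑ x (p.1 * k) ((p.2 + 1) * k))) (fun _ _ => (Real.exp_pos _).le) hp'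
  have hone : ∀ j, ∀ p ∈ P j, ∫⁻ x, Tm K k R n0 ϑ (VH K k ϑ) (te α s) p.1 p.2 x ∂(iid ν) ≤
      g (p.2 - p.1) + if ¬ In R n0 p.1 p.2 then f (p.2 - p.1) else 0 := by
    intro j p hp
    rw [hP, Finset.mem_filter] at hp
    obtain ⟨d, hd⟩ : ∃ d, p.2 = p.1 + d := ⟨p.2 - p.1, by omega⟩
    rw [hd, Nat.add_sub_cancel_left]
    by_cases hIn : In R n0 p.1 (p.1 + d)
    · exact (mng_in hPFM hPR0 hPR1 h hR hIn).trans le_self_add
    · rw [if_pos hIn]
      exact (mng_out hPFM hPR0 h hIn).trans le_add_self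
  have hfil : ∀ (j : ℕ) (F : ℕ → ℕ → ℝ≥0∞), ∑ p ∈ P j, F p.1 p.2 =
      ∑ c ∈ Finset.range n0, ∑ c' ∈ TT n0 j, if c ≤ c' then F c c' else 0 := by
    intro j F
    rw [hP, Finset.sum_filter, Finset.sum_product]
  calc _ ≤ ∑ j ∈ Finset.range J, ∫⁻ x, ∑ p ∈ P j,
        Tm K k R n0 ϑ (VH K k ϑ) (te α s) p.1 p.2 x ∂(iid ν) :=
        Finset.sum_le_sum fun j _ => lintegral_mono fun x => hpt j x
    _ = ∑ j ∈ Finset.range J, ∑ p ∈ P j, ∫⁻ x,
        Tm K k R n0 ϑ (VH K k ϑ) (te α s) p.1 p.2 x ∂(iid ν) :=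
        Finset.sum_congr rfl fun j _ =>
          lintegral_finsetSum _ fun p _ => mng_mTm hPFM K k R n0 ϑ _ _ _ _
    _ ≤ ∑ j ∈ Finset.range J, ∑ p ∈ P j,
        (g (p.2 - p.1) + if ¬ In R n0 p.1 p.2 then f (p.2 - p.1) else 0) :=
        Finset.sum_le_sum fun j _ => Finset.sum_le_sum fun p hp => hone j p hp
    _ = ∑ j ∈ Finset.range J, ∑ c ∈ Finset.range n0, ∑ c' ∈ TT n0 j,
          (if c ≤ c' then g (c' - c) else 0) +
        ∑ j ∈ Finset.range J, ∑ c ∈ Finset.range n0, ∑ c' ∈ TT n0 j,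
          (if c ≤ c' then (if ¬ In R n0 c c' then f (c' - c) else 0) else 0) := by
        rw [← Finset.sum_add_distrib]
        refine Finset.sum_congr rfl fun j _ => ?_
        rw [Finset.sum_add_distrib, hfil j fun a b => g (b - a),
          hfil j fun a b => if ¬ In R n0 a b then f (b - a) else 0]
    _ ≤ n0 * ENNReal.ofReal (VH K k ϑ ^ te α s * (Q2 (rl ν k ϑ) ϑ (te α s) τ R *
          (ad ϑ ω / kap ϑ ε (te α s) τ δ ^ 2 + 4 / kap ϑ ε (te α s) τ δ) +
          Real.exp (2 * R + 9) / kap ϑ ε (te α s) τ δ)) +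
        (4 * R * ENNReal.ofReal (VH K k ϑ ^ te α s *
          (ad ϑ ω / kap ϑ ε (te α s) τ δ ^ 2 + 40 / kap ϑ ε (te α s) τ δ)) +
        n0 * ENNReal.ofReal (VH K k ϑ ^ te α s * (2 * R * (2 * R * ad ϑ ω + 40)))) := by
        refine add_le_add ?_ ?_
        · refine (mng_pairs n0 J g).trans (mul_le_mul' le_rfl ?_)
          exact mng_sum hVp.le hκ had hQ (Real.exp_pos _).le _
        · have e1 : (∑ j ∈ Finset.range J, ∑ c ∈ Finset.range n0, ∑ c' ∈ TT n0 j,
              (if c ≤ c' then (if ¬ In R n0 c c' then f (c' - c) else 0) else 0)) =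
              ∑ j ∈ Finset.range J, ∑ c ∈ Finset.range n0, ∑ c' ∈ TT n0 j,
              (if c ≤ c' ∧ ¬ In R n0 c c' then f (c' - c) else 0) := by
            refine Finset.sum_congr rfl fun j _ => Finset.sum_congr rfl fun a _ =>
              Finset.sum_congr rfl fun b _ => ?_
            by_cases h1 : a ≤ b <;> by_cases h2 : In R n0 a b <;> simp [h1, h2]
          rw [e1]
          refine (le_trans (le_of_eq ?_) (hBND f n0 R J hn0)).trans (add_le_add
            (mul_le_mul' le_rfl ?_) (mul_le_mul' le_rfl ?_))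
          · refine Finset.sum_congr rfl fun j _ => Finset.sum_congr rfl fun a _ =>
              Finset.sum_congr rfl fun b _ => ?_
            by_cases h1 : a ≤ b <;> by_cases h2 : In R n0 a b <;> simp [h1, h2]
          · have h1 := mng_sum (X := VH K k ϑ ^ te α s) (κ := kap ϑ ε (te α s) τ δ)
              (a := ad ϑ ω) (A := 1) (B := 36) hVp.le hκ had zero_le_one (by norm_num) (J * n0)
            have e2 : VH K k ϑ ^ te α s * (1 * (ad ϑ ω / kap ϑ ε (te α s) τ δ ^ 2 +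
                4 / kap ϑ ε (te α s) τ δ) + 36 / kap ϑ ε (te α s) τ δ) =
                VH K k ϑ ^ te α s * (ad ϑ ω / kap ϑ ε (te α s) τ δ ^ 2 +
                40 / kap ϑ ε (te α s) τ δ) := by ring
            rw [e2] at h1
            refine le_trans (le_of_eq (Finset.sum_congr rfl fun d _ => ?_)) h1
            simp only [hf]
            congr 1
            ring
          · exact mng_near hVp.le hκ had R
    _ ≤ _ := by
        rw [← ENNReal.ofReal_natCast n0, ← ENNReal.ofReal_natCast R,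
          ← ENNReal.ofReal_ofNat 4, ← ENNReal.ofReal_mul (by positivity),
          ← ENNReal.ofReal_mul (by positivity), ← ENNReal.ofReal_mul (by positivity),
          ← ENNReal.ofReal_mul (by positivity), ← ENNReal.ofReal_add (by positivity)
          (by positivity), ← ENNReal.ofReal_add (by positivity) (by positivity)]
        apply ENNReal.ofReal_le_ofReal
        apply le_of_eq
        ring

end Pool.Agent.H63.EX
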